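import Mathlib

/-!
# MP_a6ceca_gt : a continuous decomposition of the plane into copies of a continuum which is
not the pseudo-arc (frozen statement S13714, negative answer to Krasinkiewicz's question)

Idea.  Let `S_n` be the plane homeomorphism (horizontal shear by a triangular wave of tiny
amplitude `α_n`, then vertical shear by the profile `β_n Γ_n(tri(x / p_n))`), and
`q = lim S_n⁻¹ ∘ ... ∘ S_0⁻¹` (uniform limit, as `∑ α_n + β_n < ∞`).  Every fibre of `q` is a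
continuum, the decomposition into the fibres is continuous, and every fibre is approximately the
inverse limit of copies of `[-1,1]` with bonding maps `Γ_n ∘ h_{n,t}`, where `h_{n,t}` is a *split
epimorphism* of `[-1,1]` (it has a continuous section) for EVERY `t`.  Split epimorphisms have
amalgamation for a trivial reason, and `Γ_n` is chosen (approximately) universal: every split
epimorphism `b` of bounded complexity satisfies `Γ_n ≈ b ∘ c` with `c` a split epimorphism.  So a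
back-and-forth argument shows that all fibres are homeomorphic (to an inverse limit of split
epimorphisms), and such an inverse limit contains an arc, so it is not hereditarily
indecomposable.
-/

set_option autoImplicit false
open Set Filter Topology

namespace Pool.Agent.Lib.MP_a6ceca_gt

/-! ## Part A : functions of one variable -/

/-- Triangular wave of period 4: `tri x = x` on `[-1,1]`, `tri x = 2 - x` on `[1,3]`.  It is one
minus the distance to the set `{4k+1}`. -/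
noncomputable def tri (x : ℝ) : ℝ :=
  1 - Metric.infDist x (Set.range (fun k : ℤ => (4 * (k : ℝ) + 1)))

/-- Clamp to `[-1,1]`. -/
noncomputable def cl (x : ℝ) : ℝ := max (-1) (min x 1)

/-- `Sp K f`: `f` is `K`-Lipschitz with values in `[-1,1]` and has a `K`-Lipschitz section
(right inverse) on `[-1,1]` with values in `[-1,1]`. -/
def Sp (K : ℝ) (f : ℝ → ℝ) : Prop :=
  (∀ x y, |f x - f y| ≤ K * |x - y|) ∧ (∀ x, |f x| ≤ 1) ∧
  ∃ s : ℝ → ℝ, (∀ x y, |s x - s y| ≤ K * |x - y|) ∧ (∀ x, |s x| ≤ 1) ∧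
    ∀ z, |z| ≤ 1 → f (s z) = z

/-- A1 (file `Tri.lean`, theorem `triStmt`).
Proof. `infDist` is 1-Lipschitz and `≥ 0`; with `k = round ((x-1)/4)`: `|x - (4k+1)| ≤ 2`, so
`0 ≤ infDist ≤ 2` and `|tri x| ≤ 1`.  For the last part put `x = 2k+v`.  If `k` is even, `k = 2j`,
the point `4j+1` is at distance `1-v`, and every other point `4i+1` is at distance
`≥ 4|j-i| - |1 - v| ≥ 2 ≥ 1-v`; so `infDist = 1-v`.  If `k` is odd, `k = 2j+1`, i.e. `x = 4j+2+v`,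
the nearest point is `4j+1` at distance `1+v` (the next one, `4j+5`, is at distance
`3-v ≥ 2 ≥ 1+v`), so `tri x = -v`. -/
def TriStmt : Prop :=
  (∀ x y, |tri x - tri y| ≤ |x - y|) ∧ (∀ x, |tri x| ≤ 1) ∧
  (∀ (k : ℤ) (v : ℝ), |v| ≤ 1 → Even k → tri (2 * (k : ℝ) + v) = v) ∧
  (∀ (k : ℤ) (v : ℝ), |v| ≤ 1 → Odd k → tri (2 * (k : ℝ) + v) = - v)

/-- A2 (file `Basic.lean`, theorem `basicStmt`).
Proof. `cl` is 1-Lipschitz with values in `[-1,1]` and `cl z = z` for `|z| ≤ 1`, so `cl` is its own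
section.  Monotone: `K |x-y| ≤ K' |x-y|`.  Composition `f ∘ g`: the section is `s_g ∘ s_f`:
`f (g (s_g (s_f z))) = f (s_f z) = z` because `|s_f z| ≤ 1`. -/
def BasicStmt : Prop :=
  Sp 1 cl ∧
  (∀ (K K' : ℝ) (f : ℝ → ℝ), Sp K f → K ≤ K' → Sp K' f) ∧
  (∀ (K K' : ℝ) (f g : ℝ → ℝ), 0 ≤ K → 0 ≤ K' → Sp K f → Sp K' g → Sp (K * K') (fun x => f (g x)))

/-- A3 (file `Amalg.lean`, theorem `amalgStmt`): amalgamation of split epimorphisms.
Proof. Let `s, s'` be the sections of `a, a'`.  For `r` put `ρ = cl r` and define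
* `ρ ≤ -1/2`: `b r = 4ρ+3`, `b' r = s' (a (4ρ+3))`;
* `-1/2 ≤ ρ ≤ 0`: `b r = 1 + (2ρ+1)(s 0 - 1) =: m(ρ)`, `b' r = s' (a (m ρ))`;
* `0 ≤ ρ ≤ 1/2`: `b' r = s' 0 + 2ρ(-1 - s' 0) =: m'(ρ)`, `b r = s (a' (m' ρ))`;
* `1/2 ≤ ρ`: `b' r = 4ρ-3`, `b r = s (a' (4ρ-3))`.
The values agree at `-1/2` (`b = 1`), at `0` (`b = s 0`, `b' = s' 0`, because `a (s 0) = 0 = a' (s' 0)`)
and at `1/2` (`b' = -1`).  In every case `a (b r) = a' (b' r)` because `a' (s' z) = z`, `a (s z) = z`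
for `|z| ≤ 1`.  Each piece is `4K²`-Lipschitz (slopes of the affine parts are at most 4 in absolute
value, `K ≥ 1`), hence so are `b, b'` (continuous, piecewise).  Section of `b`: `z ↦ (cl z - 3)/4`,
section of `b'`: `z ↦ (cl z + 3)/4`. -/
def AmalgStmt : Prop :=
  ∀ (K : ℝ) (a a' : ℝ → ℝ), 1 ≤ K → Sp K a → Sp K a' →
    ∃ b b' : ℝ → ℝ, Sp (4 * K ^ 2) b ∧ Sp (4 * K ^ 2) b' ∧ ∀ r, a (b r) = a' (b' r)

/-- A4 (file `Net.lean`, theorem `netStmt`): finite nets.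
Proof. Choose `M ≥ 1` with `K / M ≤ ε/4` and map `b` to the vector `(b (i/M))_{i = -M..M}` in
`[-1,1]^(2M+1)`, a totally bounded set; a subset of a totally bounded set has a finite
`ε/4`-net with centres in the subset (`TotallyBounded.exists_subset`), so there are finitely many
`b_j` with `Sp K b_j` such that each `b` with `Sp K b` is `ε/4`-close to some `b_j` at all grid
points; every `r ∈ [-1,1]` is within `1/M` of a grid point, so `|b r - b_j r| ≤ ε/4 + 2K/M ≤ ε`. -/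
def NetStmt : Prop :=
  ∀ (K ε : ℝ), 0 ≤ K → 0 < ε → ∃ F : List (ℝ → ℝ), (∀ b ∈ F, Sp K b) ∧
    ∀ b : ℝ → ℝ, Sp K b → ∃ b' ∈ F, ∀ r, |r| ≤ 1 → |b r - b' r| ≤ ε

/-- A5 (file `Univ.lean`, theorem `univStmt (h1 : BasicStmt) (h2 : AmalgStmt) (h3 : NetStmt)`):
an approximately universal split epimorphism.
Proof. Take the net `F` for `K, ε`.  By induction on the list `F`: there are `L, C ≥ 1` and `G` with
`Sp L G` such that for each `b ∈ F` there is `c` with `Sp C c` and `G r = b (c r)` for all `r`.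
Empty list: `G = cl`.  Step `b :: F`: amalgamate `G` and `b` (constants at most `max L K`):
`G (x r) = b (y r)`; the new `G` is `G ∘ x`, the new `c` for the old elements is `c ∘ x`, for `b` it
is `y`.  Finally for an arbitrary `b` with `Sp K b` take `b' ∈ F` with `|b - b'| ≤ ε` on `[-1,1]` and
`G = b' ∘ c`: `|G r - b (c r)| = |b' (c r) - b (c r)| ≤ ε`, as `|c r| ≤ 1`. -/
def UnivStmt : Prop :=
  ∀ (K ε : ℝ), 1 ≤ K → 0 < ε → ∃ (L C : ℝ) (G : ℝ → ℝ), 1 ≤ L ∧ 1 ≤ C ∧ Sp L G ∧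
    ∀ b : ℝ → ℝ, Sp K b → ∃ c : ℝ → ℝ, Sp C c ∧ ∀ r, |r| ≤ 1 → |G r - b (c r)| ≤ ε

/-! ## Part B : the parameters -/

/-- All parameters of the construction. -/
structure Par where
  /-- profiles -/
  G : ℕ → ℝ → ℝ
  /-- horizontal amplitudes -/
  α : ℕ → ℝ
  /-- `b n = ∑_{k ≥ n} β k` -/
  b : ℕ → ℝ
  /-- tolerances -/
  e : ℕ → ℝ
  /-- Lipschitz constants of the profiles -/
  L : ℕ → ℝ
  /-- constants of the cofactors -/
  C : ℕ → ℝ
  /-- constants of the ladder maps -/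
  K : ℕ → ℝ
  /-- Lipschitz constants of `S_0 ∘ ... ∘ S_{n-1}` -/
  Λ : ℕ → ℝ
  /-- products of the Lipschitz constants of the bonding maps -/
  N : ℕ → ℝ

namespace Par
/-- vertical amplitude -/
noncomputable def β (P : Par) (n : ℕ) : ℝ := P.b n - P.b (n + 1)
/-- scale of the horizontal shear (a quarter of the period) -/
noncomputable def d (P : Par) (n : ℕ) : ℝ := P.b (n + 1) / 8
/-- scale of the vertical shear -/
noncomputable def p (P : Par) (n : ℕ) : ℝ := P.α n / 4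
end Par

/-- The list of requirements. -/
structure Good (P : Par) : Prop where
  hα : ∀ n, 0 < P.α n
  hα4 : ∀ n, 4 * P.α (n + 1) ≤ P.α n
  hb : ∀ n, 0 < P.b n
  hb0 : P.b 0 = 1
  hb4 : ∀ n, 4 * P.b (n + 1) ≤ P.b n
  he : ∀ n, 0 < P.e n
  hL : ∀ n, 1 ≤ P.L n
  hC : ∀ n, 1 ≤ P.C n
  hK0 : P.K 0 = 1
  hK : ∀ n, P.K (n + 1) = 32 * P.C n
  hG : ∀ n, Sp (P.L n) (P.G n)
  hU : ∀ n (b : ℝ → ℝ), Sp (4 * P.K n ^ 2) b → ∃ c : ℝ → ℝ, Sp (P.C n) c ∧
    ∀ r, |r| ≤ 1 → |P.G n r - b (c r)| ≤ P.e n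
  hΛ0 : P.Λ 0 = 1
  hΛ : ∀ n, P.Λ (n + 1) = P.Λ n * ((1 + 8 * P.α n / P.b (n + 1)) * (1 + 4 * P.b n * P.L n / P.α n))
  hN0 : P.N 0 = 1
  hN : ∀ n, P.N (n + 1) = P.N n * (4 * P.K n ^ 3)
  hcp : ∀ n, (4 * P.L n / P.α n) * (2 * P.α (n + 1) + 8 * P.α n * P.b (n + 2) / P.b (n + 1)) ≤ P.e n
  hsm : ∀ n, P.Λ n * (4 * P.α n + 2 * P.b (n + 1)) ≤ (1 / 2) ^ n
  hem : ∀ n, 8 * P.K n * P.e n * P.N n ^ 2 * P.Λ n ≤ (1 / 4) ^ n

/-- A7 (file `ParEx.lean`, theorem `parExStmt (h : UnivStmt)`): the parameters exist.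
Proof. Recursive choice.  State before stage `n`: positive numbers `b n`, `K n ≥ 1`, `Λ n ≥ 1`,
`N n ≥ 1` and an upper bound `ρ n > 0` (for `α n` and for `b (n+1)`), which takes care of `hα4` and of
`hcp (n-1)`: at `n = 0`: `b = 1, K = Λ = N = ρ = 1`.  Stage `n`: put
`e n = (1/4)^n / (8 K n (N n)² Λ n)`; get `G n, L n, C n` from `UnivStmt` for `4 (K n)²`, `e n`; put
`α n = min (ρ n) ((1/2)^n / (8 Λ n))`, `b (n+1) = min (ρ n) (min (b n / 4) ((1/2)^n / (4 Λ n)))`,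
`K (n+1) = 32 C n`, `Λ (n+1)`, `N (n+1)` by the formulas, and
`ρ (n+1) = min (α n / 4) (min (e n * α n / (16 L n)) (e n * b (n+1) / (64 L n)))`.
Then `hcp n`: `(4L/α)(2 α' + 8 α b'' / b') ≤ (4L/α)·2·(e α/(16 L)) + 32 L b''/b' ≤ e/2 + e/2`. -/
def ParExStmt : Prop := ∃ P : Par, Good P

/-- The maps `h_{n,t}`. -/
noncomputable def hm (P : Par) (n : ℕ) (t : ℝ × ℝ) (w : ℝ) : ℝ :=
  tri ((t.1 + P.α n * tri ((t.2 + P.β (n + 1) * w) / P.d n)) / P.p n)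

/-- A6 (file `HMap.lean`, theorem `hMapStmt (h : TriStmt)`): for every `t` the map `h_{n,t}` is a split
epimorphism with constant 32.
Proof. Write `β = P.β (n+1)`, `b = P.b (n+1)`, so `3b/4 ≤ β ≤ b`, `d = b/8`, `p = α/4`.  Lipschitz
constant: `(α/p)(β/d) = 4 · 8β/b ≤ 32`.  Section: let `k = round (t.2/(2d))`, so `|t.2/d - 2k| ≤ 1`, and
`σ v = (d (2k ± cl v) - t.2)/β` (sign `+` if `k` is even, `-` if odd): then `(t.2 + β σ v)/d = 2k ± cl v`,
so `tri` of it is `cl v`; `|σ v| ≤ 2d/β ≤ 1`, Lipschitz constant `d/β ≤ 1`.  In the same way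
`j = round (t.1/(2p))`, `σ' u = (p (2j ± cl u) - t.1)/α`, `|σ' u| ≤ 2p/α ≤ 1`.  The section of `h_{n,t}` is
`σ ∘ σ'`. -/
def HMapStmt : Prop := ∀ P : Par, Good P → ∀ (n : ℕ) (t : ℝ × ℝ), Sp 32 (hm P n t)

/-! ## Part C : the plane -/

/-- horizontal shear profile -/
noncomputable def phi (P : Par) (n : ℕ) (y : ℝ) : ℝ := P.α n * tri (y / P.d n)
/-- vertical shear profile -/
noncomputable def psi (P : Par) (n : ℕ) (x : ℝ) : ℝ := P.β n * P.G n (tri (x / P.p n))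
/-- `S_n` -/
noncomputable def Sh (P : Par) (n : ℕ) (z : ℝ × ℝ) : ℝ × ℝ :=
  (z.1 + phi P n z.2, z.2 + psi P n (z.1 + phi P n z.2))
/-- `S_n⁻¹` -/
noncomputable def Th (P : Par) (n : ℕ) (z : ℝ × ℝ) : ℝ × ℝ :=
  (z.1 - phi P n (z.2 - psi P n z.1), z.2 - psi P n z.1)
/-- `q_n = S_{n-1}⁻¹ ∘ ... ∘ S_0⁻¹` -/
noncomputable def qn (P : Par) : ℕ → ℝ × ℝ → ℝ × ℝ
  | 0 => fun z => z
  | n + 1 => fun z => Th P n (qn P n z)
/-- `G_n = S_0 ∘ ... ∘ S_{n-1} = q_n⁻¹` -/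
noncomputable def gn (P : Par) : ℕ → ℝ × ℝ → ℝ × ℝ
  | 0 => fun z => z
  | n + 1 => fun z => gn P n (Sh P n z)
/-- `q = lim q_n` -/
noncomputable def q (P : Par) (z : ℝ × ℝ) : ℝ × ℝ := limUnder atTop (fun n => qn P n z)
/-- the coordinate `w_n ∈ [-1,1]` -/
noncomputable def wn (P : Par) (n : ℕ) (z : ℝ × ℝ) : ℝ := P.G n (tri ((qn P n z).1 / P.p n))
/-- the fibre -/
def Fib (P : Par) (t : ℝ × ℝ) : Set (ℝ × ℝ) := {z | q P z = t}

/-- C1 (file `Shear.lean`, theorem `shearStmt (h : TriStmt)`): elementary facts.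
Proof. `Sh (Th z) = z` and `Th (Sh z) = z` by computation, so `qn n (gn n z) = z` and
`gn n (qn n z) = z` by induction (for the first: generalise over `z`;
`qn (n+1) (gn (n+1) z) = Th (qn n (gn n (Sh z))) = Th (Sh z) = z`).  Continuity: `tri`, `G n` are
Lipschitz.  The two recursions are `qn n z = Sh n (qn (n+1) z)` written out. -/
def ShearStmt : Prop :=
  ∀ P : Par, Good P →
    (∀ n z, qn P n (gn P n z) = z) ∧ (∀ n z, gn P n (qn P n z) = z) ∧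
    (∀ n, Continuous (qn P n)) ∧ (∀ n, Continuous (gn P n)) ∧ (∀ n, Continuous (wn P n)) ∧
    (∀ n z, |wn P n z| ≤ 1) ∧
    (∀ n z, (qn P n z).1 = (qn P (n + 1) z).1 + P.α n * tri ((qn P (n + 1) z).2 / P.d n)) ∧
    (∀ n z, (qn P n z).2 = (qn P (n + 1) z).2 + P.β n * wn P n z)

/-- C2 (file `QLim.lean`, theorem `qLimStmt (h : TriStmt) (h' : ShearStmt)`): the limit.
Proof. By the two recursions `|x_n - x_{n+1}| ≤ α n` and `|y_n - y_{n+1}| ≤ β n = b n - b (n+1)`, so for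
`n ≤ m`: `|x_n - x_m| ≤ ∑_{n ≤ k < m} α k ≤ 2 α n` (as `α (k+1) ≤ α k / 4`) and
`|y_n - y_m| ≤ b n - b m ≤ b n`.  `α n, b n → 0` (geometric).  So `qn` is uniformly Cauchy, the limit
exists (`Tendsto.limUnder_eq`), satisfies the inequalities and is continuous (uniform limit of
continuous maps). -/
def QLimStmt : Prop :=
  ∀ P : Par, Good P →
    (∀ z, Tendsto (fun n => qn P n z) atTop (𝓝 (q P z))) ∧
    (∀ n z, |(qn P n z).1 - (q P z).1| ≤ 2 * P.α n) ∧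
    (∀ n z, |(qn P n z).2 - (q P z).2| ≤ P.b n) ∧
    Continuous (q P) ∧ Tendsto P.α atTop (𝓝 0) ∧ Tendsto P.b atTop (𝓝 0)

/-- C3 (file `Close.lean`, theorem `closeStmt (h : TriStmt) (h' : ShearStmt) (h'' : QLimStmt)`):
Proof. (i) For all `n z z' D`: if `|x_n - x_n'| ≤ D` and `|y_n - y_n'| ≤ D` then `dist z z' ≤ Λ n * D`
(`dist` on `ℝ × ℝ` is the sup distance).  Induction: from `n+1` to `n`:
`|x_n - x_n'| ≤ |x_{n+1} - x_{n+1}'| + (α n / d n) |y_{n+1} - y_{n+1}'| ≤ (1 + 8 α n / b (n+1)) D`;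
`|y_n - y_n'| ≤ |y_{n+1} - y_{n+1}'| + (β n L n / p n)|x_n - x_n'| ≤ (1 + 8α n/b(n+1))(1 + 4 b n L n/α n) D`.
(ii) `|x_n - x_n'| ≤ 4 α n + dist (q z) (q z')` by `QLimStmt`, and from `y_n = y_{n+1} + β n w_n`,
`β n ≤ 1`: `|y_n - y_n'| ≤ |w_n - w_n'| + 2 b (n+1) + dist (q z) (q z')`. -/
def CloseStmt : Prop :=
  ∀ P : Par, Good P → (∀ n, 1 ≤ P.Λ n) ∧ (∀ n, P.Λ n ≤ P.Λ (n + 1)) ∧
    ∀ (n : ℕ) (z z' : ℝ × ℝ),
      dist z z' ≤ P.Λ n * (4 * P.α n + 2 * P.b (n + 1) + dist (q P z) (q P z') + |wn P n z - wn P n z'|)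

/-- C4 (file `Coupling.lean`, theorem `couplingStmt (h : TriStmt) (h' : ShearStmt) (h'' : QLimStmt)`):
Proof. With `t = q z`: `w_n = G n (tri (x_n / p n))`, `x_n = x_{n+1} + α n tri (y_{n+1} / d n)`,
`y_{n+1} = y_{n+2} + β (n+1) w_{n+1}`, `|x_{n+1} - t.1| ≤ 2 α (n+1)`, `|y_{n+2} - t.2| ≤ b (n+2)`.  So
`|w_n - G n (hm n t w_{n+1})| ≤ (L n / p n) (2 α (n+1) + α n b (n+2) / d n) ≤ e n` by `hcp`. -/
def CouplingStmt : Prop :=
  ∀ P : Par, Good P → ∀ (n : ℕ) (z : ℝ × ℝ),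
    |wn P n z - P.G n (hm P n (q P z) (wn P (n + 1) z))| ≤ P.e n

/-- C5 (file `SurjPath.lean`, theorem `surjPathStmt (h : TriStmt) (h' : ShearStmt)`):
Proof. Fix `t, m` and put `F s = gn m (t.1, t.2 + s)`, `s ∈ [-b m, b m]`, a continuous path;
`x_m (F s) = t.1`, `y_m (F s) = t.2 + s`.  Claim by downward induction on `n < m`
(i.e. induction on `m - n`): `|x_n (F s) - t.1| ≤ 2 α n` and `|y_n (F s) - t.2| ≤ b n` for all `n ≤ m` and
all `s` (same estimates as for the nested boxes: `2 α (n+1) + α n ≤ 2 α n`, `b (n+1) + β n = b n`), and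
for each `n < m` and each `z ∈ [-1,1]` there is `s` with `w_n (F s) = z`.
Step: `y_{n+1} (F s)` takes on `[-b m, b m]` (connected) two values at distance `≥ b (n+1)/2 = 4 d n`: if
`n + 1 = m` trivially (`2 b m`), otherwise because `w_{n+1}` takes the values `±1` and
`y_{n+1} = y_{n+2} + β (n+1) w_{n+1}`, `|y_{n+2} - t.2| ≤ b (n+2)`,
`2 β (n+1) - 2 b (n+2) = 2 b (n+1) - 4 b (n+2) ≥ b (n+1)`.  An interval of length
`≥ 4 d n` contains points `y` with `y / d n = 4k+1` and with `y / d n = 4k'+3` for some integers, where `tri`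
is `1` resp. `-1`.  So `x_n = x_{n+1} + α n tri (y_{n+1}/d n)` takes a value `≥ t.1 - 2 α (n+1) + α n` and
a value `≤ t.1 + 2 α (n+1) - α n`, which differ by `≥ 2 α n - 4 α (n+1) ≥ α n = 4 p n`; so
`tri (x_n / p n)` takes all values in `[-1,1]` (for `|v| ≤ 1` every interval of length `≥ 4` contains a
point `4k + v`, where `tri` is `v`).  Choose it equal to `s_G z`, where `s_G` is the section of `G n`. -/
def SurjPathStmt : Prop :=
  ∀ P : Par, Good P → ∀ (t : ℝ × ℝ) (n m : ℕ), n < m → ∀ z : ℝ, |z| ≤ 1 →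
    ∃ w : ℝ × ℝ, (qn P m w).1 = t.1 ∧ |(qn P m w).2 - t.2| ≤ P.b m ∧ wn P n w = z

/-- C6 (file `Surj.lean`, theorem `surjStmt (h1 : ShearStmt) (h2 : QLimStmt) (h3 : SurjPathStmt)`):
each coordinate `w_n` is onto `[-1,1]` on each fibre.
Proof. Take `P_m`, `m > n`, from `SurjPathStmt`.  `dist (q P_m) t ≤ 2 α m + 2 b m → 0` and
`dist (P_m) (q P_m) ≤ 2 α 0 + b 0` (case `n = 0` of `QLimStmt`), so the `P_m` are bounded; a convergent
subsequence has a limit `P` with `q P = t` and `w_n P = z` by continuity. -/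
def SurjStmt : Prop :=
  ∀ P : Par, Good P → ∀ (t : ℝ × ℝ) (n : ℕ) (z : ℝ), |z| ≤ 1 → ∃ w : ℝ × ℝ, w ∈ Fib P t ∧ wn P n w = z

/-- C7 (file `FibTop.lean`, theorem `fibTopStmt (h1 : TriStmt) (h2 : ShearStmt) (h3 : QLimStmt) (h4 : SurjStmt)`):
the fibres are continua.
Proof. Compact: closed (`q` continuous) and bounded (`dist z (q z) ≤ 2 α 0 + b 0`).  Nonempty: `SurjStmt`.
Connected: `C m = {z | |x_m - t.1| ≤ 2 α m, |y_m - t.2| ≤ b m}` is the image of a closed rectangle under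
the continuous map `gn m`, hence compact and connected; `C (m+1) ⊆ C m` (as
`2 α (m+1) + α m ≤ 2 α m`, `b (m+1) + β m = b m`), and the intersection of all `C m` is the fibre (`⊆`:
`qn m z → t`; `⊇`: `QLimStmt`).  The intersection of a decreasing sequence of compact connected sets is
connected (if it were covered by two disjoint closed nonempty pieces, separate them by disjoint open sets
`U, V`; some `C m ⊆ U ∪ V` by compactness and meets both). -/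
def FibTopStmt : Prop :=
  ∀ P : Par, Good P → ∀ t : ℝ × ℝ, IsCompact (Fib P t) ∧ IsConnected (Fib P t)

/-- C8 (file `FibCont.lean`, theorem `fibContStmt (h1 : QLimStmt) (h2 : CloseStmt) (h3 : SurjStmt) (h4 : ShearStmt)`):
continuity of the decomposition.
Proof. Given `ε`, take `n` with `(1/2)^n < ε/2` and `δ = ε / (2 Λ n)`.  For `z` in the fibre of `t` take
`z'` in the fibre of `t'` with `w_n z' = w_n z` (`SurjStmt`); by `CloseStmt` and `hsm`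
`dist z z' ≤ (1/2)^n + Λ n dist t t' < ε`. -/
def FibContStmt : Prop :=
  ∀ P : Par, Good P → ∀ ε : ℝ, 0 < ε → ∃ δ : ℝ, 0 < δ ∧ ∀ t t' : ℝ × ℝ, dist t t' < δ →
    ∀ z ∈ Fib P t, ∃ z' ∈ Fib P t', dist z z' < ε

/-! ## Part D : the ladder and the inverse limit -/

/-- D1 (file `Ladder.lean`,
theorem `ladderStmt (h1 : BasicStmt) (h2 : AmalgStmt) (h3 : HMapStmt) (h4 : ShearStmt) (h5 : CouplingStmt)`).
Proof. Recursion: `a 0 = a' 0 = cl` (`K 0 = 1`).  Given `Sp (K n) (a n)`, `Sp (K n) (a' n)`, amalgamate: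
`b, b'` with `Sp (4 K²)` and `a n (b r) = a' n (b' r) =: k n r` (so `Sp (4 K n ^ 3) (k n)`, by composition, or
directly).  By `hU` there are `c, c'` with `Sp (C n)` and `|G n r - b (c r)| ≤ e n`,
`|G n r - b' (c' r)| ≤ e n` for `|r| ≤ 1`.  Put `a (n+1) = c ∘ hm n t`, `a' (n+1) = c' ∘ hm n t'`
(`Sp (C n * 32)`).  For `z` in the fibre of `t`, with `w_n` for `wn n z` etc.:
`|w_n - b (a (n+1) w_{n+1})| ≤ |w_n - G n (hm n t w_{n+1})| + |G n (hm ..) - b (c (hm ..))| ≤ 2 e n`; apply `a n`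
(`K n`-Lipschitz) for the first inequality; the second one follows since `b` is `4 K²`-Lipschitz. -/
def LadderStmt : Prop :=
  ∀ P : Par, Good P → ∀ t t' : ℝ × ℝ, ∃ k a a' : ℕ → ℝ → ℝ,
    (∀ n, Sp (4 * P.K n ^ 3) (k n)) ∧ (∀ n, Sp (P.K n) (a n)) ∧ (∀ n, Sp (P.K n) (a' n)) ∧
    (∀ n, ∀ z ∈ Fib P t, |a n (wn P n z) - k n (a (n + 1) (wn P (n + 1) z))| ≤ 2 * P.K n * P.e n) ∧
    (∀ n, ∀ z ∈ Fib P t', |a' n (wn P n z) - k n (a' (n + 1) (wn P (n + 1) z))| ≤ 2 * P.K n * P.e n) ∧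
    (∀ n, ∀ z ∈ Fib P t, ∀ z' ∈ Fib P t, |wn P n z - wn P n z'| ≤
      4 * P.e n + 4 * P.K n ^ 2 * |a (n + 1) (wn P (n + 1) z) - a (n + 1) (wn P (n + 1) z')|) ∧
    (∀ n, ∀ z ∈ Fib P t', ∀ z' ∈ Fib P t', |wn P n z - wn P n z'| ≤
      4 * P.e n + 4 * P.K n ^ 2 * |a' (n + 1) (wn P (n + 1) z) - a' (n + 1) (wn P (n + 1) z')|)

/-- The inverse limit of the maps `k n : [-1,1] → [-1,1]`. -/
def InvLim (k : ℕ → ℝ → ℝ) : Set (ℕ → ℝ) := {z | ∀ n, |z n| ≤ 1 ∧ z n = k n (z (n + 1))}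

/-- D2 (file `AIL.lean`, theorem `ailStmt`): approximate inverse sequences.
Proof. For `n ≤ m` let `u_{n,m} x = k n (k (n+1) (... (k (m-1) (u m x))))`.  Then
`|u_{n,m} x - u_{n,m+1} x| ≤ (N m / N n) δ m ≤ (1/4)^m / (N n * N m * Θ m)`, so `u_{n,m}` converges uniformly
to a continuous `v n`, `|v n x - u n x| ≤ 2 (1/4)^n / (N n ^ 2 * Θ n)` (`N, Θ` are nondecreasing),
`|v n| ≤ 1`, `v n x = k n (v (n+1) x)`.  So `V x = (v n x)_n` is a continuous map `X → InvLim k`.  Injective: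
if `V x = V y` then `|u n x - u n y| ≤ 4 (1/4)^n/(N n ^2 Θ n)` for all `n`, so `x = y`.  Surjective: given
`z ∈ InvLim k` choose `x_m` with `u m x_m = z m`; `|v m x_m - z m| ≤ 2 (1/4)^m/(N m ^ 2)`, so for `n ≤ m`
`|v n x_m - z n| ≤ (N m / N n) · 2 (1/4)^m / N m ^ 2 → 0`; the range of `V` in `ℕ → ℝ` is compact, hence
closed, and contains `z`.  A continuous bijection from a compact space to a Hausdorff space is a
homeomorphism (`Continuous.homeoOfEquivCompactToT2`). -/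
def AILStmt : Prop :=
  ∀ (X : Type) [TopologicalSpace X] [CompactSpace X] (k : ℕ → ℝ → ℝ) (u : ℕ → X → ℝ)
    (ℓ δ N Θ : ℕ → ℝ),
    (∀ n, 1 ≤ ℓ n) → (∀ n x y, |k n x - k n y| ≤ ℓ n * |x - y|) → (∀ n x, |k n x| ≤ 1) →
    (∀ n, Continuous (u n)) → (∀ n x, |u n x| ≤ 1) →
    (∀ n x, |u n x - k n (u (n + 1) x)| ≤ δ n) →
    N 0 = 1 → (∀ n, N (n + 1) = N n * ℓ n) → (∀ n, 1 ≤ Θ n) → (∀ n, Θ n ≤ Θ (n + 1)) →
    (∀ n, δ n * N n ^ 2 * Θ n ≤ (1 / 4) ^ n) →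
    (∀ x y, (∀ n, |u n x - u n y| ≤ 4 * (1 / 4) ^ n / (N n ^ 2 * Θ n)) → x = y) →
    (∀ n (z : ℝ), |z| ≤ 1 → ∃ x, u n x = z) →
    Nonempty (X ≃ₜ InvLim k)

/-- D3 (file `Homeo.lean`,
theorem `homeoStmt (h1 : QLimStmt) (h2 : CloseStmt) (h3 : SurjStmt) (h4 : FibTopStmt) (h5 : LadderStmt) (h6 : AILStmt) (h7 : ShearStmt)`).
Proof. Apply `AILStmt` to `X = Fib t` (compact), `u n = a n ∘ wn n`, `ℓ n = 4 K n ^ 3`, `δ n = 2 K n e n`,
`N = P.N`, `Θ = P.Λ`: `δ n N n ^ 2 Λ n ≤ (1/4)^n` by `hem`.  Onto: `a n` has a section and `wn n` is onto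
(`SurjStmt`).  Separation: if `|u n z - u n z'| ≤ 4 (1/4)^n/(N n ^ 2 Λ n)` for all `n`, then
`|w_n z - w_n z'| ≤ 4 e n + 4 K n ^ 2 · 4 (1/4)^(n+1)/(N (n+1) ^ 2 Λ (n+1)) ≤ 2 (1/4)^n / Λ n`
(`4 K n ^ 2 ≤ N (n+1) ≤ N (n+1) ^ 2`, `Λ n ≤ Λ (n+1)`, `4 e n ≤ (1/4)^n/(2 Λ n)` by `hem`), so by `CloseStmt`, `hsm`
`dist z z' ≤ (1/2)^n + 2 (1/4)^n → 0`.  The same for `t'`. -/
def HomeoStmt : Prop :=
  ∀ P : Par, Good P → ∀ t t' : ℝ × ℝ, ∃ k : ℕ → ℝ → ℝ, (∀ n, ∃ K, Sp K (k n)) ∧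
    Nonempty (Fib P t ≃ₜ InvLim k) ∧ Nonempty (Fib P t' ≃ₜ InvLim k)

/-- D4 (file `NonHI.lean`, theorem `nonHIStmt`): an inverse limit of split epimorphisms contains an arc.
Proof. Let `s n` be the section of `k n` and `γ r : ℕ → ℝ`, `γ r 0 = cl r`, `γ r (n+1) = s n (γ r n)`; it is
continuous in `r` and lies in `InvLim k` (`k n (s n y) = y` for `|y| ≤ 1`).  `A = γ '' [-1,0]`,
`B = γ '' [0,1]` are compact and connected, `γ 0 ∈ A ∩ B`; the zeroth coordinate is `≤ 0` on `A` and `≥ 0`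
on `B`, and `γ (-1) ∈ A`, `γ 1 ∈ B` have zeroth coordinates `-1`, `1`. -/
def NonHIStmt : Prop :=
  ∀ k : ℕ → ℝ → ℝ, (∀ n, ∃ K, Sp K (k n)) → ∃ A B : Set (InvLim k), IsClosed A ∧ IsConnected A ∧
    IsClosed B ∧ IsConnected B ∧ (A ∩ B).Nonempty ∧ ¬ A ⊆ B ∧ ¬ B ⊆ A

end Pool.Agent.Lib.MP_a6ceca_gt
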