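import Mathlib
import Pool.Agent.Lib.MP_a6ceca_gt.Spec

set_option autoImplicit false
open Set Filter Topology

namespace Pool.Agent.Lib.MP_a6ceca_gt

/-- `k n ∘ k (n+1) ∘ ... ∘ k (n+j-1)` -/
def ailCmp (k : ℕ → ℝ → ℝ) (n : ℕ) : ℕ → ℝ → ℝ
  | 0 => fun x => x
  | j + 1 => fun x => ailCmp k n j (k (n + j) x)

theorem ailCmp_zero (k : ℕ → ℝ → ℝ) (n : ℕ) (x : ℝ) : ailCmp k n 0 x = x := rfl

theorem ailCmp_succ (k : ℕ → ℝ → ℝ) (n j : ℕ) (x : ℝ) :
    ailCmp k n (j + 1) x = ailCmp k n j (k (n + j) x) := rfl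

theorem ailCmp_succ' (k : ℕ → ℝ → ℝ) (n j : ℕ) (x : ℝ) :
    ailCmp k n (j + 1) x = k n (ailCmp k (n + 1) j x) := by
  induction j generalizing x with
  | zero => rfl
  | succ j ih =>
    rw [ailCmp_succ, ih, ailCmp_succ]
    have : n + (j + 1) = n + 1 + j := by ring
    rw [this]

theorem ailCmp_abs {k : ℕ → ℝ → ℝ} (hk1 : ∀ n x, |k n x| ≤ 1) (n j : ℕ) {x : ℝ} (hx : |x| ≤ 1) :
    |ailCmp k n j x| ≤ 1 := by
  cases j with
  | zero => exact hx
  | succ j => rw [ailCmp_succ']; exact hk1 _ _

theorem ailCmp_cont {k : ℕ → ℝ → ℝ} (hk : ∀ n, Continuous (k n)) (n j : ℕ) :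
    Continuous (ailCmp k n j) := by
  induction j with
  | zero => exact continuous_id
  | succ j ih => exact ih.comp (hk _)

theorem ailN_pos {ℓ N : ℕ → ℝ} (hℓ : ∀ n, 1 ≤ ℓ n) (hN0 : N 0 = 1)
    (hN : ∀ n, N (n + 1) = N n * ℓ n) (n : ℕ) : 1 ≤ N n := by
  induction n with
  | zero => rw [hN0]
  | succ n ih =>
    rw [hN]
    nlinarith [hℓ n]

theorem ailN_mono {ℓ N : ℕ → ℝ} (hℓ : ∀ n, 1 ≤ ℓ n) (hN0 : N 0 = 1)
    (hN : ∀ n, N (n + 1) = N n * ℓ n) : Monotone N := by
  apply monotone_nat_of_le_succ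
  intro n
  rw [hN]
  nlinarith [hℓ n, ailN_pos hℓ hN0 hN n]

theorem ailCmp_lip {k : ℕ → ℝ → ℝ} {ℓ N : ℕ → ℝ} (hℓ : ∀ n, 1 ≤ ℓ n)
    (hk : ∀ n x y, |k n x - k n y| ≤ ℓ n * |x - y|) (hN0 : N 0 = 1)
    (hN : ∀ n, N (n + 1) = N n * ℓ n) (n j : ℕ) (x y : ℝ) :
    N n * |ailCmp k n j x - ailCmp k n j y| ≤ N (n + j) * |x - y| := by
  induction j generalizing x y with
  | zero => exact le_rfl
  | succ j ih =>
    rw [ailCmp_succ, ailCmp_succ]
    calc N n * |ailCmp k n j (k (n + j) x) - ailCmp k n j (k (n + j) y)|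
        ≤ N (n + j) * |k (n + j) x - k (n + j) y| := ih _ _
      _ ≤ N (n + j) * (ℓ (n + j) * |x - y|) := by
          apply mul_le_mul_of_nonneg_left (hk _ _ _)
          exact zero_le_one.trans (ailN_pos hℓ hN0 hN _)
      _ = N (n + (j + 1)) * |x - y| := by
          rw [← add_assoc, hN]; ring

theorem ailStmt : AILStmt := by
  intro X _ _ k u ℓ δ N Θ hℓ hk hk1 hu hu1 hδ hN0 hN hΘ hΘm hδN hsep hsurj
  have hNp : ∀ n, 1 ≤ N n := ailN_pos hℓ hN0 hN
  have hNm : Monotone N := ailN_mono hℓ hN0 hN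
  have hΘmono : Monotone Θ := monotone_nat_of_le_succ hΘm
  have hkc : ∀ n, Continuous (k n) := by
    intro n
    refine (LipschitzWith.of_dist_le_mul (K := (ℓ n).toNNReal) ?_).continuous
    intro x y
    rw [Real.dist_eq, Real.dist_eq, Real.coe_toNNReal _ (zero_le_one.trans (hℓ n))]
    exact hk n x y
  set B : ℕ → ℝ := fun n => (1 / 4) ^ n / (N n ^ 2 * Θ n) with hB
  have hBpos : ∀ n, 0 < B n := by
    intro n
    have := hNp n
    have := hΘ n
    simp only [hB]
    positivity
  set U : ℕ → ℕ → X → ℝ := fun n j x => ailCmp k n j (u (n + j) x) with hU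
  -- consecutive differences
  have hstep : ∀ n x j, dist (U n j x) (U n (j + 1) x) ≤ B n * (1 / 4) ^ j := by
    intro n x j
    have h1 := ailCmp_lip hℓ hk hN0 hN n j (u (n + j) x) (k (n + j) (u (n + j + 1) x))
    have h2 : N (n + j) * |u (n + j) x - k (n + j) (u (n + j + 1) x)| ≤ N (n + j) * δ (n + j) :=
      mul_le_mul_of_nonneg_left (hδ _ _) (zero_le_one.trans (hNp _))
    have h3 : U n (j + 1) x = ailCmp k n j (k (n + j) (u (n + j + 1) x)) := rfl
    rw [Real.dist_eq, h3]
    set D := |U n j x - ailCmp k n j (k (n + j) (u (n + j + 1) x))| with hD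
    have h4 : N n * D ≤ N (n + j) * δ (n + j) := h1.trans h2
    have h5 := hδN (n + j)
    have p1 := hNp n
    have p2 := hNp (n + j)
    have p3 := hΘ n
    have p4 := hΘ (n + j)
    have m1 : N n ≤ N (n + j) := hNm (Nat.le_add_right _ _)
    have m2 : Θ n ≤ Θ (n + j) := hΘmono (Nat.le_add_right _ _)
    have hD0 : 0 ≤ D := abs_nonneg _
    -- D * (N n ^ 2 * Θ n) ≤ (1/4)^(n+j)
    have h6 : D * (N n ^ 2 * Θ n) ≤ (1 / 4) ^ (n + j) := by
      calc D * (N n ^ 2 * Θ n) = (N n * D) * (N n * Θ n) := by ring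
        _ ≤ (N (n + j) * δ (n + j)) * (N (n + j) * Θ (n + j)) := by
            apply mul_le_mul h4 (mul_le_mul m1 m2 (by linarith) (by linarith)) (by positivity)
            exact le_trans (by positivity) h4
        _ = δ (n + j) * N (n + j) ^ 2 * Θ (n + j) := by ring
        _ ≤ _ := h5
    have hpos : 0 < N n ^ 2 * Θ n := by positivity
    have h7 : B n * (1 / 4) ^ j = (1 / 4) ^ (n + j) / (N n ^ 2 * Θ n) := by
      simp only [hB]
      rw [pow_add]
      ring
    rw [h7, le_div_iff₀ hpos]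
    exact h6
  have hconv : ∀ n x, ∃ a, Tendsto (fun j => U n j x) atTop (𝓝 a) := by
    intro n x
    exact cauchySeq_tendsto_of_complete
      (cauchySeq_of_le_geometric (1 / 4) (B n) (by norm_num) (hstep n x))
  choose v hv using hconv
  have hdist : ∀ n x j, dist (U n j x) (v n x) ≤ B n * (1 / 4) ^ j / (1 - 1 / 4) := by
    intro n x j
    exact dist_le_of_le_geometric_of_tendsto (1 / 4) (B n) (by norm_num) (hstep n x) (hv n x) j
  have hvu : ∀ n x, |v n x - u n x| ≤ 2 * B n := by
    intro n x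
    have h1 := hdist n x 0
    rw [Real.dist_eq, abs_sub_comm] at h1
    have h2 : U n 0 x = u n x := rfl
    rw [h2] at h1
    refine h1.trans ?_
    have := hBpos n
    norm_num
    linarith
  have hUc : ∀ n j, Continuous (U n j) := fun n j => (ailCmp_cont hkc n j).comp (hu _)
  have hvc : ∀ n, Continuous (v n) := by
    intro n
    have hunif : TendstoUniformly (fun j => U n j) (v n) atTop := by
      rw [Metric.tendstoUniformly_iff]
      intro ε hε
      have hlim : Tendsto (fun j : ℕ => B n * (1 / 4 : ℝ) ^ j / (1 - 1 / 4)) atTop (𝓝 0) := by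
        have h0 : Tendsto (fun j : ℕ => (1 / 4 : ℝ) ^ j) atTop (𝓝 0) :=
          tendsto_pow_atTop_nhds_zero_of_lt_one (by norm_num) (by norm_num)
        have h1 := (h0.const_mul (B n)).div_const (1 - 1 / 4)
        simpa using h1
      filter_upwards [hlim.eventually (gt_mem_nhds hε)] with j hj x
      rw [dist_comm]
      exact (hdist n x j).trans_lt hj
    exact hunif.continuous (Frequently.of_forall (hUc n))
  have hv1 : ∀ n x, |v n x| ≤ 1 := by
    intro n x
    refine le_of_tendsto ((hv n x).abs) (Eventually.of_forall (fun j => ?_))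
    exact ailCmp_abs hk1 n j (hu1 _ _)
  have hvk : ∀ n x, v n x = k n (v (n + 1) x) := by
    intro n x
    have h1 : Tendsto (fun j => U n (j + 1) x) atTop (𝓝 (v n x)) :=
      (tendsto_add_atTop_iff_nat 1).mpr (hv n x)
    have h2 : Tendsto (fun j => k n (U (n + 1) j x)) atTop (𝓝 (k n (v (n + 1) x))) :=
      ((hkc n).tendsto _).comp (hv (n + 1) x)
    have h3 : (fun j => U n (j + 1) x) = fun j => k n (U (n + 1) j x) := by
      funext j
      simp only [hU]
      rw [ailCmp_succ']
      have : n + (j + 1) = n + 1 + j := by ring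
      rw [this]
    rw [h3] at h1
    exact tendsto_nhds_unique h1 h2
  have hmem : ∀ x, (fun n => v n x) ∈ InvLim k := fun x n => ⟨hv1 n x, hvk n x⟩
  -- iteration of the relation
  have hiter : ∀ z : ℕ → ℝ, (∀ n, z n = k n (z (n + 1))) → ∀ j n, z n = ailCmp k n j (z (n + j)) := by
    intro z hz j
    induction j with
    | zero => intro n; rfl
    | succ j ih =>
      intro n
      rw [ailCmp_succ, ← add_assoc, ← hz (n + j)]
      exact ih n
  let V : X → InvLim k := fun x => ⟨fun n => v n x, hmem x⟩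
  have hVc : Continuous V := by
    refine Continuous.subtype_mk (continuous_pi (fun n => hvc n)) _
  have hVinj : Function.Injective V := by
    intro x y hxy
    apply hsep
    intro n
    have h0 : v n x = v n y := congrFun (congrArg Subtype.val hxy) n
    have h1 := hvu n x
    have h2 := hvu n y
    have h3 : |u n x - u n y| ≤ 4 * B n := by
      have h4 : u n x - u n y = (v n y - u n y) - (v n x - u n x) := by rw [h0]; ring
      rw [h4]
      refine (abs_sub _ _).trans ?_
      linarith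
    have h5 : 4 * B n = 4 * (1 / 4) ^ n / (N n ^ 2 * Θ n) := by simp only [hB]; ring
    rw [← h5]
    exact h3
  have hVsurj : Function.Surjective V := by
    rintro ⟨z, hz⟩
    choose xm hxm using fun m => hsurj m (z m) (hz m).1
    have hrange : IsClosed (Set.range (fun x => (fun n => v n x : ℕ → ℝ))) :=
      (isCompact_range (continuous_pi (fun n => hvc n))).isClosed
    have hest : ∀ n j, |v n (xm (n + j)) - z n| ≤ 2 * (1 / 4) ^ (n + j) := by
      intro n j
      have h1 := hiter (fun i => v i (xm (n + j))) (fun i => hvk i _) j n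
      have h2 := hiter z (fun i => (hz i).2) j n
      have h3 := ailCmp_lip hℓ hk hN0 hN n j (v (n + j) (xm (n + j))) (z (n + j))
      rw [← h1, ← h2] at h3
      have h4 := hvu (n + j) (xm (n + j))
      rw [hxm] at h4
      have p1 := hNp n
      have p2 := hNp (n + j)
      have p4 := hΘ (n + j)
      have h5 : N (n + j) * |v (n + j) (xm (n + j)) - z (n + j)| ≤ 2 * (1 / 4) ^ (n + j) := by
        calc N (n + j) * |v (n + j) (xm (n + j)) - z (n + j)| ≤ N (n + j) * (2 * B (n + j)) :=
              mul_le_mul_of_nonneg_left h4 (by linarith)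
          _ = 2 * (1 / 4) ^ (n + j) / (N (n + j) * Θ (n + j)) := by
              simp only [hB]
              have : N (n + j) ≠ 0 := by linarith
              have : Θ (n + j) ≠ 0 := by linarith
              field_simp
          _ ≤ 2 * (1 / 4) ^ (n + j) := by
              apply div_le_self (by positivity)
              nlinarith
      have h6 : |v n (xm (n + j)) - z n| ≤ N n * |v n (xm (n + j)) - z n| := by
        have := abs_nonneg (v n (xm (n + j)) - z n)
        nlinarith
      exact h6.trans (h3.trans h5)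
    have htend : Tendsto (fun m => (fun n => v n (xm m) : ℕ → ℝ)) atTop (𝓝 z) := by
      rw [tendsto_pi_nhds]
      intro n
      rw [tendsto_iff_dist_tendsto_zero]
      have hlim : Tendsto (fun m : ℕ => 2 * (1 / 4 : ℝ) ^ m) atTop (𝓝 0) := by
        have h0 : Tendsto (fun j : ℕ => (1 / 4 : ℝ) ^ j) atTop (𝓝 0) :=
          tendsto_pow_atTop_nhds_zero_of_lt_one (by norm_num) (by norm_num)
        have h1 := h0.const_mul 2
        simpa using h1
      refine squeeze_zero' (Eventually.of_forall (fun m => dist_nonneg)) ?_ hlim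
      filter_upwards [eventually_ge_atTop n] with m hm
      obtain ⟨j, rfl⟩ := Nat.exists_eq_add_of_le hm
      rw [Real.dist_eq]
      exact hest n j
    have hin : z ∈ Set.range (fun x => (fun n => v n x : ℕ → ℝ)) :=
      hrange.mem_of_tendsto htend (Eventually.of_forall (fun m => ⟨xm m, rfl⟩))
    obtain ⟨x, hx⟩ := hin
    exact ⟨x, Subtype.ext hx⟩
  let e : X ≃ InvLim k := Equiv.ofBijective V ⟨hVinj, hVsurj⟩
  have hec : Continuous e := hVc
  exact ⟨hec.homeoOfEquivCompactToT2⟩

end Pool.Agent.Lib.MP_a6ceca_gt
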