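import Mathlib
import Pool.Agent.Lib.MP_a6ceca_gt.Spec

/-!
# A3: amalgamation of split epimorphisms
-/

set_option autoImplicit false
open Set Filter Topology

namespace Pool.Agent.Lib.MP_a6ceca_gt

/-- the broken line on the left part -/
noncomputable def amalgU (p x : ℝ) : ℝ := (4 * min x (-(1 / 2)) + 3) + (2 * max x (-(1 / 2)) + 1) * (p - 1)

/-- the broken line on the right part -/
noncomputable def amalgV (p x : ℝ) : ℝ := p + 2 * min x (1 / 2) * (-1 - p) + (4 * max x (1 / 2) - 2)

theorem amalg_minmax (x y c : ℝ) : |min x c - min y c| + |max x c - max y c| = |x - y| := by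
  rcases le_total x c with h1 | h1 <;> rcases le_total y c with h2 | h2
  · simp [min_eq_left h1, min_eq_left h2, max_eq_right h1, max_eq_right h2]
  · rw [min_eq_left h1, min_eq_right h2, max_eq_right h1, max_eq_left h2,
      abs_of_nonpos (by linarith : x - c ≤ 0), abs_of_nonpos (by linarith : c - y ≤ 0),
      abs_of_nonpos (by linarith : x - y ≤ 0)]
    ring
  · rw [min_eq_right h1, min_eq_left h2, max_eq_left h1, max_eq_right h2,
      abs_of_nonneg (by linarith : 0 ≤ c - y), abs_of_nonneg (by linarith : 0 ≤ x - c),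
      abs_of_nonneg (by linarith : 0 ≤ x - y)]
    ring
  · simp [min_eq_right h1, min_eq_right h2, max_eq_left h1, max_eq_left h2]

theorem amalgU_lip (p x y : ℝ) (hp : |p| ≤ 1) : |amalgU p x - amalgU p y| ≤ 4 * |x - y| := by
  have h := amalg_minmax x y (-(1 / 2))
  have hp1 : |p - 1| ≤ 2 := by
    have := abs_le.1 hp
    rw [abs_le]; constructor <;> linarith
  have e : amalgU p x - amalgU p y = 4 * (min x (-(1 / 2)) - min y (-(1 / 2)))
      + 2 * ((max x (-(1 / 2)) - max y (-(1 / 2))) * (p - 1)) := by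
    unfold amalgU; ring
  rw [e]
  calc _ ≤ |4 * (min x (-(1 / 2)) - min y (-(1 / 2)))|
      + |2 * ((max x (-(1 / 2)) - max y (-(1 / 2))) * (p - 1))| := abs_add_le _ _
    _ = 4 * |min x (-(1 / 2)) - min y (-(1 / 2))|
      + 2 * (|max x (-(1 / 2)) - max y (-(1 / 2))| * |p - 1|) := by
        rw [abs_mul, abs_mul, abs_mul]; norm_num
    _ ≤ 4 * |min x (-(1 / 2)) - min y (-(1 / 2))|
      + 2 * (|max x (-(1 / 2)) - max y (-(1 / 2))| * 2) := by
        have := mul_le_mul_of_nonneg_left hp1 (abs_nonneg (max x (-(1 / 2)) - max y (-(1 / 2))))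
        linarith
    _ = 4 * |x - y| := by rw [← h]; ring

theorem amalgV_lip (p x y : ℝ) (hp : |p| ≤ 1) : |amalgV p x - amalgV p y| ≤ 4 * |x - y| := by
  have h := amalg_minmax x y (1 / 2)
  have hp1 : |-1 - p| ≤ 2 := by
    have := abs_le.1 hp
    rw [abs_le]; constructor <;> linarith
  have e : amalgV p x - amalgV p y = 2 * ((min x (1 / 2) - min y (1 / 2)) * (-1 - p))
      + 4 * (max x (1 / 2) - max y (1 / 2)) := by
    unfold amalgV; ring
  rw [e]
  calc _ ≤ |2 * ((min x (1 / 2) - min y (1 / 2)) * (-1 - p))|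
      + |4 * (max x (1 / 2) - max y (1 / 2))| := abs_add_le _ _
    _ = 2 * (|min x (1 / 2) - min y (1 / 2)| * |-1 - p|)
      + 4 * |max x (1 / 2) - max y (1 / 2)| := by
        rw [abs_mul, abs_mul, abs_mul]; norm_num
    _ ≤ 2 * (|min x (1 / 2) - min y (1 / 2)| * 2) + 4 * |max x (1 / 2) - max y (1 / 2)| := by
        have := mul_le_mul_of_nonneg_left hp1 (abs_nonneg (min x (1 / 2) - min y (1 / 2)))
        linarith
    _ = 4 * |x - y| := by rw [← h]; ring

theorem amalgU_zero (p : ℝ) : amalgU p 0 = p := by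
  unfold amalgU
  rw [min_eq_right (by norm_num), max_eq_left (by norm_num)]
  ring

theorem amalgV_zero (p : ℝ) : amalgV p 0 = p := by
  unfold amalgV
  rw [min_eq_left (by norm_num), max_eq_right (by norm_num)]
  ring

theorem amalgU_left (p x : ℝ) (hx : x ≤ -(1 / 2)) : amalgU p x = 4 * x + 3 := by
  unfold amalgU
  rw [min_eq_left hx, max_eq_right hx]
  ring

theorem amalgV_right (p x : ℝ) (hx : 1 / 2 ≤ x) : amalgV p x = 4 * x - 3 := by
  unfold amalgV
  rw [min_eq_right hx, max_eq_left hx]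
  ring

theorem amalgU_le (p x : ℝ) (hp : |p| ≤ 1) (h1 : -1 ≤ x) (h2 : x ≤ 0) : |amalgU p x| ≤ 1 := by
  have hp' := abs_le.1 hp
  rcases le_total x (-(1 / 2)) with h | h
  · rw [amalgU_left p x h, abs_le]
    constructor <;> linarith
  · unfold amalgU
    rw [min_eq_right h, max_eq_left h, abs_le]
    constructor <;> nlinarith

theorem amalgV_le (p x : ℝ) (hp : |p| ≤ 1) (h1 : 0 ≤ x) (h2 : x ≤ 1) : |amalgV p x| ≤ 1 := by
  have hp' := abs_le.1 hp
  rcases le_total x (1 / 2) with h | h
  · unfold amalgV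
    rw [min_eq_left h, max_eq_right h, abs_le]
    constructor <;> nlinarith
  · rw [amalgV_right p x h, abs_le]
    constructor <;> linarith

theorem amalg_cl_bd (x : ℝ) : -1 ≤ cl x ∧ cl x ≤ 1 := by
  unfold cl
  exact ⟨le_max_left _ _, max_le (by norm_num) (min_le_right _ _)⟩

theorem amalg_cl_id (x : ℝ) (h : |x| ≤ 1) : cl x = x := by
  have h' := abs_le.1 h
  unfold cl
  rw [min_eq_left h'.2, max_eq_right h'.1]

theorem amalg_cl_lip (x y : ℝ) : |cl x - cl y| ≤ |x - y| := by
  unfold cl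
  have h1 := abs_max_sub_max_le_abs (min x 1) (min y 1) (-1)
  have h2 := abs_min_sub_min_le_max x 1 y 1
  rw [max_comm (-1) (min x 1), max_comm (-1) (min y 1)]
  refine h1.trans (h2.trans ?_)
  simp

theorem amalgStmt : AmalgStmt := by
  intro K a a' hK ⟨haL, haB, s, hsL, hsB, hs⟩ ⟨haL', haB', s', hsL', hsB', hs'⟩
  have hK0 : 0 ≤ K := by linarith
  have hKK : 1 ≤ K ^ 2 := by nlinarith
  set p := s 0 with hp
  set p' := s' 0 with hp'
  have hpB : |p| ≤ 1 := hsB 0
  have hpB' : |p'| ≤ 1 := hsB' 0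
  have hap : a p = 0 := hs 0 (by norm_num)
  have hap' : a' p' = 0 := hs' 0 (by norm_num)
  set b : ℝ → ℝ := fun r => amalgU p (min (cl r) 0) + s (a' (amalgV p' (max (cl r) 0))) - p with hb
  set b' : ℝ → ℝ := fun r => s' (a (amalgU p (min (cl r) 0))) + amalgV p' (max (cl r) 0) - p' with hb'
  -- the two halves
  have hbl : ∀ r, cl r ≤ 0 → b r = amalgU p (cl r) ∧ b' r = s' (a (amalgU p (cl r))) := by
    intro r hr
    simp only [hb, hb', min_eq_left hr, max_eq_right hr, amalgV_zero, hap']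
    constructor
    · change amalgU p (cl r) + p - p = _
      ring
    · ring
  have hbr : ∀ r, 0 ≤ cl r → b r = s (a' (amalgV p' (cl r))) ∧ b' r = amalgV p' (cl r) := by
    intro r hr
    simp only [hb, hb', min_eq_right hr, max_eq_left hr, amalgU_zero, hap]
    constructor
    · ring
    · change p' + amalgV p' (cl r) - p' = _
      ring
  have hss : ∀ x y, |s (a' x) - s (a' y)| ≤ K ^ 2 * |x - y| := by
    intro x y
    calc |s (a' x) - s (a' y)| ≤ K * |a' x - a' y| := hsL _ _
      _ ≤ K * (K * |x - y|) := mul_le_mul_of_nonneg_left (haL' _ _) hK0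
      _ = K ^ 2 * |x - y| := by ring
  have hss' : ∀ x y, |s' (a x) - s' (a y)| ≤ K ^ 2 * |x - y| := by
    intro x y
    calc |s' (a x) - s' (a y)| ≤ K * |a x - a y| := hsL' _ _
      _ ≤ K * (K * |x - y|) := mul_le_mul_of_nonneg_left (haL _ _) hK0
      _ = K ^ 2 * |x - y| := by ring
  have hclip : ∀ x y : ℝ, |min (cl x) 0 - min (cl y) 0| + |max (cl x) 0 - max (cl y) 0| ≤ |x - y| :=
    fun x y => (amalg_minmax _ _ _).le.trans (amalg_cl_lip x y)
  have habs1 : ∀ r, |b r| ≤ 1 := by
    intro r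
    rcases le_total (cl r) 0 with h | h
    · rw [(hbl r h).1]
      exact amalgU_le p _ hpB (amalg_cl_bd r).1 h
    · rw [(hbr r h).1]
      exact hsB _
  have habs2 : ∀ r, |b' r| ≤ 1 := by
    intro r
    rcases le_total (cl r) 0 with h | h
    · rw [(hbl r h).2]
      exact hsB' _
    · rw [(hbr r h).2]
      exact amalgV_le p' _ hpB' h (amalg_cl_bd r).2
  refine ⟨b, b', ⟨?_, habs1, fun z => (cl z - 3) / 4, ?_, ?_, ?_⟩,
    ⟨?_, habs2, fun z => (cl z + 3) / 4, ?_, ?_, ?_⟩, ?_⟩
  · intro x y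
    have h1 := amalgU_lip p (min (cl x) 0) (min (cl y) 0) hpB
    have h2 := hss (amalgV p' (max (cl x) 0)) (amalgV p' (max (cl y) 0))
    have h3 := amalgV_lip p' (max (cl x) 0) (max (cl y) 0) hpB'
    have h4 := hclip x y
    have e : b x - b y = (amalgU p (min (cl x) 0) - amalgU p (min (cl y) 0)) +
        (s (a' (amalgV p' (max (cl x) 0))) - s (a' (amalgV p' (max (cl y) 0)))) := by
      simp only [hb]; ring
    rw [e]
    have h5 := abs_nonneg (min (cl x) 0 - min (cl y) 0)
    have h6 := abs_nonneg (max (cl x) 0 - max (cl y) 0)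
    calc _ ≤ 4 * |min (cl x) 0 - min (cl y) 0| + K ^ 2 * (4 * |max (cl x) 0 - max (cl y) 0|) := by
          refine (abs_add_le _ _).trans (add_le_add h1 (h2.trans ?_))
          exact mul_le_mul_of_nonneg_left h3 (by positivity)
      _ ≤ 4 * K ^ 2 * (|min (cl x) 0 - min (cl y) 0| + |max (cl x) 0 - max (cl y) 0|) := by
          nlinarith
      _ ≤ 4 * K ^ 2 * |x - y| := mul_le_mul_of_nonneg_left h4 (by positivity)
  · intro x y
    have h1 := amalg_cl_lip x y
    have e : (cl x - 3) / 4 - (cl y - 3) / 4 = (cl x - cl y) / 4 := by ring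
    rw [e, abs_div]
    have h2 := abs_nonneg (x - y)
    rw [abs_of_pos (by norm_num : (0 : ℝ) < 4)]
    nlinarith
  · intro x
    have := amalg_cl_bd x
    rw [abs_le]
    constructor <;> linarith [this.1, this.2]
  · intro z hz
    have hz' := abs_le.1 hz
    have h1 : cl z = z := amalg_cl_id z hz
    have h2 : cl ((z - 3) / 4) = (z - 3) / 4 := amalg_cl_id _ (by
      rw [abs_le]; constructor <;> linarith)
    simp only [h1]
    rw [(hbl _ (by rw [h2]; linarith)).1, h2, amalgU_left _ _ (by linarith)]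
    ring
  · intro x y
    have h1 := amalgV_lip p' (max (cl x) 0) (max (cl y) 0) hpB'
    have h2 := hss' (amalgU p (min (cl x) 0)) (amalgU p (min (cl y) 0))
    have h3 := amalgU_lip p (min (cl x) 0) (min (cl y) 0) hpB
    have h4 := hclip x y
    have e : b' x - b' y =
        (s' (a (amalgU p (min (cl x) 0))) - s' (a (amalgU p (min (cl y) 0)))) +
        (amalgV p' (max (cl x) 0) - amalgV p' (max (cl y) 0)) := by
      simp only [hb']; ring
    rw [e]
    have h5 := abs_nonneg (min (cl x) 0 - min (cl y) 0)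
    have h6 := abs_nonneg (max (cl x) 0 - max (cl y) 0)
    calc _ ≤ K ^ 2 * (4 * |min (cl x) 0 - min (cl y) 0|) + 4 * |max (cl x) 0 - max (cl y) 0| := by
          refine (abs_add_le _ _).trans (add_le_add (h2.trans ?_) h1)
          exact mul_le_mul_of_nonneg_left h3 (by positivity)
      _ ≤ 4 * K ^ 2 * (|min (cl x) 0 - min (cl y) 0| + |max (cl x) 0 - max (cl y) 0|) := by
          nlinarith
      _ ≤ 4 * K ^ 2 * |x - y| := mul_le_mul_of_nonneg_left h4 (by positivity)
  · intro x y
    have h1 := amalg_cl_lip x y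
    have e : (cl x + 3) / 4 - (cl y + 3) / 4 = (cl x - cl y) / 4 := by ring
    rw [e, abs_div]
    have h2 := abs_nonneg (x - y)
    rw [abs_of_pos (by norm_num : (0 : ℝ) < 4)]
    nlinarith
  · intro x
    have := amalg_cl_bd x
    rw [abs_le]
    constructor <;> linarith [this.1, this.2]
  · intro z hz
    have hz' := abs_le.1 hz
    have h1 : cl z = z := amalg_cl_id z hz
    have h2 : cl ((z + 3) / 4) = (z + 3) / 4 := amalg_cl_id _ (by
      rw [abs_le]; constructor <;> linarith)
    simp only [h1]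
    rw [(hbr _ (by rw [h2]; linarith)).2, h2, amalgV_right _ _ (by linarith)]
    ring
  · intro r
    rcases le_total (cl r) 0 with h | h
    · rw [(hbl r h).1, (hbl r h).2, hs' _ (haB _)]
    · rw [(hbr r h).1, (hbr r h).2, hs _ (haB' _)]

end Pool.Agent.Lib.MP_a6ceca_gt
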