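import Mathlib
import Pool.Agent.Lib.MP_a6ceca_gt.Spec

/-!
# MP_a6ceca_gt : A2, basic facts on split epimorphisms
-/

set_option autoImplicit false

namespace Pool.Agent.Lib.MP_a6ceca_gt

theorem Basic_cl_lip (x y : ℝ) : |cl x - cl y| ≤ 1 * |x - y| := by
  unfold cl
  rw [one_mul]
  rcases le_total x 1 with h1 | h1 <;> rcases le_total y 1 with h2 | h2 <;>
    rcases le_total (-1) x with h3 | h3 <;> rcases le_total (-1) y with h4 | h4 <;>
    simp only [min_eq_left h1, min_eq_right h1, min_eq_left h2, min_eq_right h2] <;>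
    rw [abs_le] <;> constructor <;>
    cases max_cases (-1 : ℝ) x <;> cases max_cases (-1 : ℝ) y <;>
    cases max_cases (-1 : ℝ) 1 <;> cases abs_cases (x - y) <;> linarith

theorem Basic_cl_abs (x : ℝ) : |cl x| ≤ 1 := by
  unfold cl
  rw [abs_le]
  refine ⟨le_max_left _ _, max_le (by norm_num) (min_le_right _ _)⟩

theorem Basic_cl_eq (z : ℝ) (hz : |z| ≤ 1) : cl z = z := by
  rw [abs_le] at hz
  unfold cl
  rw [min_eq_left hz.2, max_eq_right hz.1]

theorem basicStmt : BasicStmt := by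
  refine ⟨⟨Basic_cl_lip, Basic_cl_abs, cl, Basic_cl_lip, Basic_cl_abs, ?_⟩, ?_, ?_⟩
  · intro z hz
    rw [Basic_cl_eq z hz, Basic_cl_eq z hz]
  · rintro K K' f ⟨h1, h2, s, h3, h4, h5⟩ hK
    have hmono : ∀ x y : ℝ, K * |x - y| ≤ K' * |x - y| := fun x y =>
      mul_le_mul_of_nonneg_right hK (abs_nonneg _)
    exact ⟨fun x y => (h1 x y).trans (hmono x y), h2, s, fun x y => (h3 x y).trans (hmono x y),
      h4, h5⟩
  · rintro K K' f g hK hK' ⟨f1, f2, s, f3, f4, f5⟩ ⟨g1, g2, s', g3, g4, g5⟩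
    refine ⟨?_, fun x => f2 _, fun z => s' (s z), ?_, fun x => g4 _, ?_⟩
    · intro x y
      refine (f1 _ _).trans ?_
      rw [mul_assoc]
      exact mul_le_mul_of_nonneg_left (g1 x y) hK
    · intro x y
      refine (g3 _ _).trans ?_
      rw [mul_comm K K', mul_assoc]
      exact mul_le_mul_of_nonneg_left (f3 x y) hK'
    · intro z hz
      change f (g (s' (s z))) = z
      rw [g5 _ (f4 z), f5 z hz]

end Pool.Agent.Lib.MP_a6ceca_gt
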