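import Mathlib
import Pool.Agent.Lib.MP_a6ceca_gt.Spec

set_option autoImplicit false
open Set Filter Topology

namespace Pool.Agent.Lib.MP_a6ceca_gt

private theorem close_bpos (P : Par) (h : Good P) (n : ℕ) : 0 < P.β n ∧ P.β n ≤ P.b n := by
  have h1 := h.hb4 n
  have h2 := h.hb (n + 1)
  have h3 := h.hb n
  unfold Par.β
  constructor <;> linarith

private theorem close_ble (P : Par) (h : Good P) (n : ℕ) : P.b n ≤ 1 := by
  induction n with
  | zero => exact le_of_eq h.hb0
  | succ n ih =>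
    have h1 := h.hb4 n
    have h2 := h.hb (n + 1)
    linarith

private theorem close_f1 (P : Par) (h : Good P) (n : ℕ) :
    1 ≤ (1 + 8 * P.α n / P.b (n + 1)) * (1 + 4 * P.b n * P.L n / P.α n) := by
  have hα := h.hα n
  have hb := h.hb n
  have hb' := h.hb (n + 1)
  have hL := h.hL n
  have e1 : 0 ≤ 8 * P.α n / P.b (n + 1) := by positivity
  have e2 : 0 ≤ 4 * P.b n * P.L n / P.α n := by
    have : 0 ≤ P.L n := by linarith
    positivity
  nlinarith [mul_nonneg e1 e2]

private theorem close_L1 (P : Par) (h : Good P) (n : ℕ) : 1 ≤ P.Λ n := by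
  induction n with
  | zero => exact le_of_eq h.hΛ0.symm
  | succ n ih =>
    rw [h.hΛ n]
    have := close_f1 P h n
    nlinarith

private theorem close_Lm (P : Par) (h : Good P) (n : ℕ) : P.Λ n ≤ P.Λ (n + 1) := by
  rw [h.hΛ n]
  have := close_f1 P h n
  have h1 := close_L1 P h n
  nlinarith

private theorem close_tri_div (h : TriStmt) (a b d : ℝ) (hd : 0 < d) :
    |tri (a / d) - tri (b / d)| ≤ |a - b| / d := by
  have := h.1 (a / d) (b / d)
  rw [← sub_div, abs_div, abs_of_pos hd] at this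
  exact this

private theorem close_step (htri : TriStmt) (hsh : ShearStmt) (P : Par) (h : Good P) (n : ℕ)
    (z z' : ℝ × ℝ) (D : ℝ) (hx : |(qn P (n + 1) z).1 - (qn P (n + 1) z').1| ≤ D)
    (hy : |(qn P (n + 1) z).2 - (qn P (n + 1) z').2| ≤ D) :
    |(qn P n z).1 - (qn P n z').1| ≤
        (1 + 8 * P.α n / P.b (n + 1)) * (1 + 4 * P.b n * P.L n / P.α n) * D ∧
      |(qn P n z).2 - (qn P n z').2| ≤
        (1 + 8 * P.α n / P.b (n + 1)) * (1 + 4 * P.b n * P.L n / P.α n) * D := by
  obtain ⟨-, -, -, -, -, -, r1, r2⟩ := hsh P h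
  have hα := h.hα n
  have hb := h.hb n
  have hb' := h.hb (n + 1)
  have hL := h.hL n
  have hβ := close_bpos P h n
  have hD : 0 ≤ D := le_trans (abs_nonneg _) hx
  have hd : 0 < P.d n := by unfold Par.d; positivity
  have hp : 0 < P.p n := by unfold Par.p; positivity
  have e1 : 0 ≤ 8 * P.α n / P.b (n + 1) := by positivity
  have e2 : 0 ≤ 4 * P.b n * P.L n / P.α n := by
    have : 0 ≤ P.L n := by linarith
    positivity
  have t1 := close_tri_div htri (qn P (n + 1) z).2 (qn P (n + 1) z').2 (P.d n) hd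
  have hX : |(qn P n z).1 - (qn P n z').1| ≤ (1 + 8 * P.α n / P.b (n + 1)) * D := by
    rw [r1 n z, r1 n z']
    have a1 : (qn P (n + 1) z).1 + P.α n * tri ((qn P (n + 1) z).2 / P.d n) -
        ((qn P (n + 1) z').1 + P.α n * tri ((qn P (n + 1) z').2 / P.d n)) =
        ((qn P (n + 1) z).1 - (qn P (n + 1) z').1) +
        P.α n * (tri ((qn P (n + 1) z).2 / P.d n) - tri ((qn P (n + 1) z').2 / P.d n)) := by ring
    rw [a1]
    refine le_trans (abs_add_le _ _) ?_
    rw [abs_mul, abs_of_pos hα]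
    have a2 : P.α n * |tri ((qn P (n + 1) z).2 / P.d n) - tri ((qn P (n + 1) z').2 / P.d n)| ≤
        P.α n * (D / P.d n) := by
      refine mul_le_mul_of_nonneg_left (le_trans t1 ?_) hα.le
      gcongr
    have a3 : P.α n * (D / P.d n) = 8 * P.α n / P.b (n + 1) * D := by
      unfold Par.d
      field_simp
    rw [a3] at a2
    linarith
  constructor
  · refine le_trans hX ?_
    have : 0 ≤ (1 + 8 * P.α n / P.b (n + 1)) * D := by positivity
    have e3 : (1 + 8 * P.α n / P.b (n + 1)) * (1 + 4 * P.b n * P.L n / P.α n) * D =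
        (1 + 8 * P.α n / P.b (n + 1)) * D +
        (1 + 8 * P.α n / P.b (n + 1)) * D * (4 * P.b n * P.L n / P.α n) := by ring
    rw [e3]
    nlinarith [mul_nonneg this e2]
  · have hw : |wn P n z - wn P n z'| ≤ P.L n * (|(qn P n z).1 - (qn P n z').1| / P.p n) := by
      unfold wn
      refine le_trans ((h.hG n).1 _ _) ?_
      have hL0 : 0 ≤ P.L n := by linarith
      exact mul_le_mul_of_nonneg_left (close_tri_div htri _ _ _ hp) hL0
    rw [r2 n z, r2 n z']
    have a1 : (qn P (n + 1) z).2 + P.β n * wn P n z - ((qn P (n + 1) z').2 + P.β n * wn P n z') =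
        ((qn P (n + 1) z).2 - (qn P (n + 1) z').2) + P.β n * (wn P n z - wn P n z') := by ring
    rw [a1]
    refine le_trans (abs_add_le _ _) ?_
    rw [abs_mul, abs_of_pos hβ.1]
    have hL0 : 0 ≤ P.L n := by linarith
    have a2 : P.β n * |wn P n z - wn P n z'| ≤
        P.b n * (P.L n * ((1 + 8 * P.α n / P.b (n + 1)) * D / P.p n)) := by
      refine mul_le_mul hβ.2 (le_trans hw ?_) (abs_nonneg _) hb.le
      refine mul_le_mul_of_nonneg_left ?_ hL0
      gcongr
    have a3 : P.b n * (P.L n * ((1 + 8 * P.α n / P.b (n + 1)) * D / P.p n)) =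
        4 * P.b n * P.L n / P.α n * ((1 + 8 * P.α n / P.b (n + 1)) * D) := by
      unfold Par.p
      field_simp
    rw [a3] at a2
    have e3 : (1 + 8 * P.α n / P.b (n + 1)) * (1 + 4 * P.b n * P.L n / P.α n) * D =
        D + 8 * P.α n / P.b (n + 1) * D +
        4 * P.b n * P.L n / P.α n * ((1 + 8 * P.α n / P.b (n + 1)) * D) := by ring
    rw [e3]
    have e4 : 0 ≤ 8 * P.α n / P.b (n + 1) * D := mul_nonneg e1 hD
    linarith

private theorem close_i (htri : TriStmt) (hsh : ShearStmt) (P : Par) (h : Good P) (n : ℕ) :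
    ∀ (z z' : ℝ × ℝ) (D : ℝ), |(qn P n z).1 - (qn P n z').1| ≤ D →
      |(qn P n z).2 - (qn P n z').2| ≤ D → dist z z' ≤ P.Λ n * D := by
  induction n with
  | zero =>
    intro z z' D hx hy
    rw [h.hΛ0, one_mul, Prod.dist_eq, Real.dist_eq, Real.dist_eq]
    exact max_le hx hy
  | succ n ih =>
    intro z z' D hx hy
    obtain ⟨s1, s2⟩ := close_step htri hsh P h n z z' D hx hy
    have := ih z z' _ s1 s2
    rw [h.hΛ n]
    calc dist z z' ≤ _ := this
      _ = _ := by ring

theorem closeStmt (h : TriStmt) (h' : ShearStmt) (h'' : QLimStmt) : CloseStmt := by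
  intro P hP
  refine ⟨close_L1 P hP, close_Lm P hP, ?_⟩
  intro n z z'
  obtain ⟨-, -, -, -, -, -, -, r2⟩ := h' P hP
  obtain ⟨-, q1, q2, -, -, -⟩ := h'' P hP
  refine close_i h h' P hP n z z' _ ?_ ?_
  · have a1 := q1 n z
    have a2 := q1 n z'
    have a3 : |(q P z).1 - (q P z').1| ≤ dist (q P z) (q P z') := by
      rw [Prod.dist_eq, Real.dist_eq]
      exact le_max_left _ _
    have a4 := abs_nonneg (wn P n z - wn P n z')
    have hb' := hP.hb (n + 1)
    rw [abs_le] at a1 a2 a3 ⊢
    constructor <;> linarith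
  · have a1 := q2 (n + 1) z
    have a2 := q2 (n + 1) z'
    have a3 : |(q P z).2 - (q P z').2| ≤ dist (q P z) (q P z') := by
      rw [Prod.dist_eq, Real.dist_eq, Real.dist_eq]
      exact le_max_right _ _
    have hb' := hP.hb (n + 1)
    have hα := hP.hα n
    have hβ := close_bpos P hP n
    have hβ1 : P.β n ≤ 1 := le_trans hβ.2 (close_ble P hP n)
    have a5 : |P.β n * (wn P n z - wn P n z')| ≤ |wn P n z - wn P n z'| := by
      rw [abs_mul, abs_of_pos hβ.1]
      have := abs_nonneg (wn P n z - wn P n z')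
      nlinarith
    rw [r2 n z, r2 n z']
    have a6 : (qn P (n + 1) z).2 + P.β n * wn P n z - ((qn P (n + 1) z').2 + P.β n * wn P n z') =
        ((qn P (n + 1) z).2 - (q P z).2) - ((qn P (n + 1) z').2 - (q P z').2) +
        ((q P z).2 - (q P z').2) + P.β n * (wn P n z - wn P n z') := by ring
    rw [a6]
    rw [abs_le] at a1 a2 a3 a5
    rw [abs_le]
    constructor <;> linarith

end Pool.Agent.Lib.MP_a6ceca_gt
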