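import Pool.Agent.Lib.MP_a6ceca_gt.Spec

/-!
# C4: the coupling inequality
-/

set_option autoImplicit false
open Set Filter Topology

namespace Pool.Agent.Lib.MP_a6ceca_gt

theorem couplingStmt (h : TriStmt) (h' : ShearStmt) (h'' : QLimStmt) : CouplingStmt := by
  obtain ⟨htri, -, -, -⟩ := h
  intro P hP n z
  obtain ⟨-, -, -, -, -, -, hx, hy⟩ := h' P hP
  obtain ⟨-, hqx, hqy, -, -, -⟩ := h'' P hP
  have hα := hP.hα n
  have hb := hP.hb (n + 1)
  have hd : 0 < P.d n := by unfold Par.d; linarith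
  have hp : 0 < P.p n := by unfold Par.p; linarith
  have hL := hP.hL n
  -- names
  set t := q P z with ht
  set w := wn P (n + 1) z with hw
  have e1 : (qn P n z).1 = (qn P (n + 1) z).1 + P.α n * tri ((qn P (n + 1) z).2 / P.d n) := hx n z
  have e2 : (qn P (n + 1) z).2 = (qn P (n + 1 + 1) z).2 + P.β (n + 1) * w := hy (n + 1) z
  have b1 : |(qn P (n + 1) z).1 - t.1| ≤ 2 * P.α (n + 1) := hqx (n + 1) z
  have b2 : |(qn P (n + 1 + 1) z).2 - t.2| ≤ P.b (n + 2) := hqy (n + 1 + 1) z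
  have c1 : |tri ((qn P (n + 1) z).2 / P.d n) - tri ((t.2 + P.β (n + 1) * w) / P.d n)| ≤
      P.b (n + 2) / P.d n := by
    refine le_trans (htri _ _) ?_
    rw [← sub_div, abs_div, abs_of_pos hd]
    apply div_le_div_of_nonneg_right _ hd.le
    rw [e2]
    have : (qn P (n + 1 + 1) z).2 + P.β (n + 1) * w - (t.2 + P.β (n + 1) * w) =
        (qn P (n + 1 + 1) z).2 - t.2 := by ring
    rw [this]
    exact b2
  have c2 : |(qn P n z).1 - (t.1 + P.α n * tri ((t.2 + P.β (n + 1) * w) / P.d n))| ≤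
      2 * P.α (n + 1) + P.α n * (P.b (n + 2) / P.d n) := by
    rw [e1]
    have : (qn P (n + 1) z).1 + P.α n * tri ((qn P (n + 1) z).2 / P.d n) -
        (t.1 + P.α n * tri ((t.2 + P.β (n + 1) * w) / P.d n)) =
        ((qn P (n + 1) z).1 - t.1) + P.α n * (tri ((qn P (n + 1) z).2 / P.d n) -
          tri ((t.2 + P.β (n + 1) * w) / P.d n)) := by ring
    rw [this]
    refine le_trans (abs_add_le _ _) ?_
    rw [abs_mul, abs_of_pos hα]
    exact add_le_add b1 (mul_le_mul_of_nonneg_left c1 hα.le)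
  have c3 : |tri ((qn P n z).1 / P.p n) - hm P n t w| ≤
      (2 * P.α (n + 1) + P.α n * (P.b (n + 2) / P.d n)) / P.p n := by
    unfold hm
    refine le_trans (htri _ _) ?_
    rw [← sub_div, abs_div, abs_of_pos hp]
    exact div_le_div_of_nonneg_right c2 hp.le
  have c4 : |wn P n z - P.G n (hm P n t w)| ≤
      P.L n * ((2 * P.α (n + 1) + P.α n * (P.b (n + 2) / P.d n)) / P.p n) := by
    unfold wn
    refine le_trans ((hP.hG n).1 _ _) ?_
    exact mul_le_mul_of_nonneg_left c3 (by linarith)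
  refine le_trans c4 (le_trans (le_of_eq ?_) (hP.hcp n))
  unfold Par.d Par.p
  field_simp
  try ring

end Pool.Agent.Lib.MP_a6ceca_gt
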