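import Pool.Agent.Lib.MP_a6ceca_gt.Spec

/-!
# MP_a6ceca_gt : item C8, continuity of the decomposition
-/

set_option autoImplicit false
open Set Filter Topology

namespace Pool.Agent.Lib.MP_a6ceca_gt

theorem fibContStmt (_h1 : QLimStmt) (h2 : CloseStmt) (h3 : SurjStmt) (h4 : ShearStmt) :
    FibContStmt := by
  intro P hP ε hε
  obtain ⟨hΛ1, _, hclose⟩ := h2 P hP
  obtain ⟨_, _, _, _, _, hw, _, _⟩ := h4 P hP
  obtain ⟨n, hn⟩ := exists_pow_lt_of_lt_one (half_pos hε) (by norm_num : (1 / 2 : ℝ) < 1)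
  have hΛpos : 0 < P.Λ n := lt_of_lt_of_le one_pos (hΛ1 n)
  refine ⟨ε / (2 * P.Λ n), by positivity, ?_⟩
  intro t t' htt z hz
  obtain ⟨z', hz', hwz⟩ := h3 P hP t' n (wn P n z) (hw n z)
  refine ⟨z', hz', ?_⟩
  have hc := hclose n z z'
  have hq : dist (q P z) (q P z') = dist t t' := by
    have e1 : q P z = t := hz
    have e2 : q P z' = t' := hz'
    rw [e1, e2]
  rw [hq, hwz, sub_self, abs_zero, add_zero] at hc
  have hs := hP.hsm n
  have h5 : P.Λ n * dist t t' < ε / 2 := by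
    calc P.Λ n * dist t t' < P.Λ n * (ε / (2 * P.Λ n)) := mul_lt_mul_of_pos_left htt hΛpos
      _ = ε / 2 := by field_simp
  calc dist z z' ≤ P.Λ n * (4 * P.α n + 2 * P.b (n + 1) + dist t t') := hc
    _ = P.Λ n * (4 * P.α n + 2 * P.b (n + 1)) + P.Λ n * dist t t' := by ring
    _ < ε := by linarith

end Pool.Agent.Lib.MP_a6ceca_gt
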