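import Mathlib
import Pool.Agent.Lib.MP_a6ceca_gt.Spec

/-!
# MP_a6ceca_gt : item C7, the fibres are continua
-/

set_option autoImplicit false
open Set Filter Topology

namespace Pool.Agent.Lib.MP_a6ceca_gt

/-- A decreasing intersection of compact preconnected sets is preconnected. -/
theorem fibTop_inter_preconn {X : Type*} [TopologicalSpace X] [T2Space X] (C : ℕ → Set X)
    (hanti : ∀ n, C (n + 1) ⊆ C n) (hc : ∀ n, IsCompact (C n))
    (hp : ∀ n, IsPreconnected (C n)) : IsPreconnected (⋂ n, C n) := by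
  have hA : Antitone C := antitone_nat_of_succ_le hanti
  have hK : IsCompact (⋂ n, C n) := by
    refine (hc 0).of_isClosed_subset (isClosed_iInter fun n => (hc n).isClosed) ?_
    exact iInter_subset _ 0
  rw [isPreconnected_closed_iff]
  intro s s' hs hs' hcov hne hne'
  by_contra hcon
  have hdis : Disjoint ((⋂ n, C n) ∩ s) ((⋂ n, C n) ∩ s') := by
    rw [Set.disjoint_iff]
    rintro x ⟨⟨hx, hxs⟩, ⟨-, hxs'⟩⟩
    exact hcon ⟨x, hx, hxs, hxs'⟩
  obtain ⟨U, V, hU, hV, hsU, hsV, hUV⟩ :=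
    SeparatedNhds.of_isCompact_isCompact (hK.inter_right hs) (hK.inter_right hs') hdis
  obtain ⟨n, hn⟩ : ∃ n, C n ⊆ U ∪ V := by
    apply exists_subset_nhds_of_isCompact
    · exact hA.directed_ge
    · exact hc
    · intro x hx
      apply (hU.union hV).mem_nhds
      rcases hcov hx with h | h
      · exact Or.inl (hsU ⟨hx, h⟩)
      · exact Or.inr (hsV ⟨hx, h⟩)
  obtain ⟨x, hx, hxs⟩ := hne
  obtain ⟨y, hy, hys⟩ := hne'
  obtain ⟨z, hz, hzU, hzV⟩ := hp n U V hU hV hn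
    ⟨x, mem_iInter.1 hx n, hsU ⟨hx, hxs⟩⟩ ⟨y, mem_iInter.1 hy n, hsV ⟨hy, hys⟩⟩
  exact Set.disjoint_left.1 hUV hzU hzV

/-- The closed rectangle with centre `t` and half-sides `2 α_m`, `b_m`. -/
def fibTopRect (P : Par) (t : ℝ × ℝ) (m : ℕ) : Set (ℝ × ℝ) :=
  Icc (t.1 - 2 * P.α m) (t.1 + 2 * P.α m) ×ˢ Icc (t.2 - P.b m) (t.2 + P.b m)

theorem fibTop_mem_rect (P : Par) (t : ℝ × ℝ) (m : ℕ) (z : ℝ × ℝ) :
    z ∈ fibTopRect P t m ↔ |z.1 - t.1| ≤ 2 * P.α m ∧ |z.2 - t.2| ≤ P.b m := by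
  unfold fibTopRect
  rw [Set.mem_prod, Set.mem_Icc, Set.mem_Icc, abs_le, abs_le]
  constructor
  · rintro ⟨⟨h1, h2⟩, ⟨h3, h4⟩⟩
    exact ⟨⟨by linarith, by linarith⟩, ⟨by linarith, by linarith⟩⟩
  · rintro ⟨⟨h1, h2⟩, ⟨h3, h4⟩⟩
    exact ⟨⟨by linarith, by linarith⟩, ⟨by linarith, by linarith⟩⟩

/-- The nested sets `C m`. -/
def fibTopC (P : Par) (t : ℝ × ℝ) (m : ℕ) : Set (ℝ × ℝ) := gn P m '' fibTopRect P t m

theorem fibTop_mem_C (h2 : ShearStmt) (P : Par) (hP : Good P) (t : ℝ × ℝ) (m : ℕ) (z : ℝ × ℝ) :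
    z ∈ fibTopC P t m ↔ qn P m z ∈ fibTopRect P t m := by
  obtain ⟨hqg, hgq, -⟩ := h2 P hP
  constructor
  · rintro ⟨w, hw, rfl⟩
    rw [hqg]
    exact hw
  · intro h
    exact ⟨qn P m z, h, hgq m z⟩

theorem fibTop_C_succ (h1 : TriStmt) (h2 : ShearStmt) (P : Par) (hP : Good P) (t : ℝ × ℝ) (m : ℕ) :
    fibTopC P t (m + 1) ⊆ fibTopC P t m := by
  intro z hz
  rw [fibTop_mem_C h2 P hP, fibTop_mem_rect] at hz ⊢
  obtain ⟨hz1, hz2⟩ := hz
  obtain ⟨-, -, -, -, -, hw, hx, hy⟩ := h2 P hP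
  have hα := hP.hα m
  have hα4 := hP.hα4 m
  have hb4 := hP.hb4 m
  have hb1 := hP.hb (m + 1)
  have hβ : 0 ≤ P.β m := by unfold Par.β; linarith
  constructor
  · rw [hx m z]
    have e1 : (qn P (m + 1) z).1 + P.α m * tri ((qn P (m + 1) z).2 / P.d m) - t.1
        = ((qn P (m + 1) z).1 - t.1) + P.α m * tri ((qn P (m + 1) z).2 / P.d m) := by ring
    rw [e1]
    have e2 : |P.α m * tri ((qn P (m + 1) z).2 / P.d m)| ≤ P.α m := by
      rw [abs_mul, abs_of_pos hα]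
      exact mul_le_of_le_one_right hα.le (h1.2.1 _)
    have e3 := abs_add_le ((qn P (m + 1) z).1 - t.1) (P.α m * tri ((qn P (m + 1) z).2 / P.d m))
    linarith
  · rw [hy m z]
    have e1 : (qn P (m + 1) z).2 + P.β m * wn P m z - t.2
        = ((qn P (m + 1) z).2 - t.2) + P.β m * wn P m z := by ring
    rw [e1]
    have e2 : |P.β m * wn P m z| ≤ P.β m := by
      rw [abs_mul, abs_of_nonneg hβ]
      exact mul_le_of_le_one_right hβ (hw m z)
    have e3 := abs_add_le ((qn P (m + 1) z).2 - t.2) (P.β m * wn P m z)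
    have e4 : P.β m = P.b m - P.b (m + 1) := rfl
    linarith

theorem fibTop_C_compact (h2 : ShearStmt) (P : Par) (hP : Good P) (t : ℝ × ℝ) (m : ℕ) :
    IsCompact (fibTopC P t m) := by
  obtain ⟨-, -, -, hcg, -⟩ := h2 P hP
  exact (isCompact_Icc.prod isCompact_Icc).image (hcg m)

theorem fibTop_C_preconn (h2 : ShearStmt) (P : Par) (hP : Good P) (t : ℝ × ℝ) (m : ℕ) :
    IsPreconnected (fibTopC P t m) := by
  obtain ⟨-, -, -, hcg, -⟩ := h2 P hP
  exact (isPreconnected_Icc.prod isPreconnected_Icc).image _ (hcg m).continuousOn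

theorem fibTop_eq_iInter (h2 : ShearStmt) (h3 : QLimStmt) (P : Par) (hP : Good P) (t : ℝ × ℝ) :
    Fib P t = ⋂ m, fibTopC P t m := by
  obtain ⟨htend, hx, hy, -, hα0, hb0⟩ := h3 P hP
  ext z
  rw [mem_iInter]
  constructor
  · intro hz m
    have hz' : q P z = t := hz
    rw [fibTop_mem_C h2 P hP, fibTop_mem_rect, ← hz']
    exact ⟨hx m z, hy m z⟩
  · intro hz
    have hz' : ∀ m, |(qn P m z).1 - t.1| ≤ 2 * P.α m ∧ |(qn P m z).2 - t.2| ≤ P.b m := by
      intro m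
      have := hz m
      rwa [fibTop_mem_C h2 P hP, fibTop_mem_rect] at this
    have ht1 : Tendsto (fun m => (qn P m z).1) atTop (𝓝 t.1) := by
      rw [tendsto_iff_norm_sub_tendsto_zero]
      have h0 : Tendsto (fun m => 2 * P.α m) atTop (𝓝 0) := by
        simpa using hα0.const_mul 2
      exact squeeze_zero (fun m => norm_nonneg _) (fun m => (hz' m).1) h0
    have ht2 : Tendsto (fun m => (qn P m z).2) atTop (𝓝 t.2) := by
      rw [tendsto_iff_norm_sub_tendsto_zero]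
      exact squeeze_zero (fun m => norm_nonneg _) (fun m => (hz' m).2) hb0
    have ht : Tendsto (fun m => qn P m z) atTop (𝓝 t) := ht1.prodMk_nhds ht2
    exact tendsto_nhds_unique (htend z) ht

/-- C7: the fibres are continua. -/
theorem fibTopStmt (h1 : TriStmt) (h2 : ShearStmt) (h3 : QLimStmt) (h4 : SurjStmt) :
    FibTopStmt := by
  intro P hP t
  have heq := fibTop_eq_iInter h2 h3 P hP t
  refine ⟨?_, ?_, ?_⟩
  · rw [heq]
    refine (fibTop_C_compact h2 P hP t 0).of_isClosed_subset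
      (isClosed_iInter fun n => (fibTop_C_compact h2 P hP t n).isClosed) ?_
    exact iInter_subset _ 0
  · obtain ⟨w, hw, -⟩ := h4 P hP t 0 0 (by simp)
    exact ⟨w, hw⟩
  · rw [heq]
    exact fibTop_inter_preconn _ (fibTop_C_succ h1 h2 P hP t) (fibTop_C_compact h2 P hP t)
      (fibTop_C_preconn h2 P hP t)

end Pool.Agent.Lib.MP_a6ceca_gt
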