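import Mathlib
import Pool.Agent.Lib.MP_a6ceca_gt.Spec

/-!
# The maps `h_{n,t}` are split epimorphisms
-/

set_option autoImplicit false
open Set Filter Topology

namespace Pool.Agent.Lib.MP_a6ceca_gt

private theorem hMap_cl_lip (x y : ℝ) : |cl x - cl y| ≤ |x - y| := by
  unfold cl
  calc |max (-1) (min x 1) - max (-1) (min y 1)| ≤ |min x 1 - min y 1| := by
        have := abs_max_sub_max_le_max (-1 : ℝ) (min x 1) (-1) (min y 1)
        simpa using this
    _ ≤ |x - y| := by
        have := abs_min_sub_min_le_max x 1 y 1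
        simpa using this

private theorem hMap_cl_abs (x : ℝ) : |cl x| ≤ 1 := by
  unfold cl
  rw [abs_le]
  constructor
  · exact le_max_left _ _
  · exact max_le (by norm_num) (min_le_right _ _)

private theorem hMap_cl_eq (z : ℝ) (h : |z| ≤ 1) : cl z = z := by
  unfold cl
  rw [abs_le] at h
  rw [min_eq_left h.2, max_eq_right h.1]

private theorem hMap_section (h : TriStmt) (D t B : ℝ) (hD : 0 < D) (hB : 2 * D ≤ B) :
    ∃ σ : ℝ → ℝ, (∀ x y, |σ x - σ y| ≤ |x - y|) ∧ (∀ x, |σ x| ≤ 1) ∧
      ∀ z, |z| ≤ 1 → tri ((t + B * σ z) / D) = z := by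
  obtain ⟨-, -, h3, h4⟩ := h
  have hBpos : 0 < B := by linarith
  set k : ℤ := round (t / (2 * D)) with hk
  have hr : |t / (2 * D) - k| ≤ 1 / 2 := abs_sub_round _
  have ht : |t - 2 * D * k| ≤ D := by
    have e : t - 2 * D * k = (2 * D) * (t / (2 * D) - k) := by
      field_simp
    rw [e, abs_mul, abs_of_pos (by linarith : (0 : ℝ) < 2 * D)]
    nlinarith
  have ht' := abs_le.1 ht
  rcases Int.even_or_odd k with he | ho
  · refine ⟨fun v => (D * (2 * (k : ℝ) + cl v) - t) / B, ?_, ?_, ?_⟩
    · intro x y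
      have e : (D * (2 * (k : ℝ) + cl x) - t) / B - (D * (2 * (k : ℝ) + cl y) - t) / B
          = (D / B) * (cl x - cl y) := by ring
      simp only
      rw [e, abs_mul, abs_of_pos (div_pos hD hBpos)]
      have h1 : D / B ≤ 1 := by rw [div_le_one hBpos]; linarith
      calc D / B * |cl x - cl y| ≤ 1 * |cl x - cl y| :=
            mul_le_mul_of_nonneg_right h1 (abs_nonneg _)
        _ = |cl x - cl y| := one_mul _
        _ ≤ |x - y| := hMap_cl_lip x y
    · intro x
      have hc := abs_le.1 (hMap_cl_abs x)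
      simp only
      rw [abs_div, abs_of_pos hBpos, div_le_one hBpos, abs_le]
      constructor <;> nlinarith
    · intro z hz
      have e : (t + B * ((D * (2 * (k : ℝ) + cl z) - t) / B)) / D = 2 * (k : ℝ) + cl z := by
        field_simp
        ring
      simp only
      rw [e, hMap_cl_eq z hz]
      exact h3 k z hz he
  · refine ⟨fun v => (D * (2 * (k : ℝ) - cl v) - t) / B, ?_, ?_, ?_⟩
    · intro x y
      have e : (D * (2 * (k : ℝ) - cl x) - t) / B - (D * (2 * (k : ℝ) - cl y) - t) / B
          = -((D / B) * (cl x - cl y)) := by ring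
      simp only
      rw [e, abs_neg, abs_mul, abs_of_pos (div_pos hD hBpos)]
      have h1 : D / B ≤ 1 := by rw [div_le_one hBpos]; linarith
      calc D / B * |cl x - cl y| ≤ 1 * |cl x - cl y| :=
            mul_le_mul_of_nonneg_right h1 (abs_nonneg _)
        _ = |cl x - cl y| := one_mul _
        _ ≤ |x - y| := hMap_cl_lip x y
    · intro x
      have hc := abs_le.1 (hMap_cl_abs x)
      simp only
      rw [abs_div, abs_of_pos hBpos, div_le_one hBpos, abs_le]
      constructor <;> nlinarith
    · intro z hz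
      have e : (t + B * ((D * (2 * (k : ℝ) - cl z) - t) / B)) / D = 2 * (k : ℝ) + -cl z := by
        field_simp
        ring
      simp only
      rw [e, hMap_cl_eq z hz]
      have := h4 k (-z) (by rwa [abs_neg]) ho
      rw [this, neg_neg]

theorem hMapStmt (h : TriStmt) : HMapStmt := by
  intro P hP n t
  have hα := hP.hα n
  have hb := hP.hb (n + 1)
  have hb' := hP.hb (n + 2)
  have hb4 := hP.hb4 (n + 1)
  have hβ1 : P.β (n + 1) ≤ P.b (n + 1) := by
    unfold Par.β
    have : P.b (n + 1 + 1) = P.b (n + 2) := rfl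
    rw [this]; linarith
  have hβ2 : 3 / 4 * P.b (n + 1) ≤ P.β (n + 1) := by
    unfold Par.β
    linarith
  have hβ0 : 0 < P.β (n + 1) := by linarith
  have hd : 0 < P.d n := by unfold Par.d; linarith
  have hp : 0 < P.p n := by unfold Par.p; linarith
  obtain ⟨h1, h2, -, -⟩ := id h
  obtain ⟨σ, hσ1, hσ2, hσ3⟩ := hMap_section h (P.d n) t.2 (P.β (n + 1)) hd (by
    unfold Par.d; linarith)
  obtain ⟨τ, hτ1, hτ2, hτ3⟩ := hMap_section h (P.p n) t.1 (P.α n) hp (by
    unfold Par.p; linarith)
  refine ⟨?_, fun x => h2 _, fun z => σ (τ z), ?_, fun x => hσ2 _, ?_⟩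
  · intro x y
    unfold hm
    refine le_trans (h1 _ _) ?_
    set u := tri ((t.2 + P.β (n + 1) * x) / P.d n) with hu
    set v := tri ((t.2 + P.β (n + 1) * y) / P.d n) with hv
    have e : (t.1 + P.α n * u) / P.p n - (t.1 + P.α n * v) / P.p n = 4 * (u - v) := by
      unfold Par.p
      field_simp
      ring
    rw [e, abs_mul, abs_of_pos (by norm_num : (0 : ℝ) < 4)]
    have huv : |u - v| ≤ 8 * |x - y| := by
      refine le_trans (h1 _ _) ?_
      have e2 : (t.2 + P.β (n + 1) * x) / P.d n - (t.2 + P.β (n + 1) * y) / P.d n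
          = (8 * (P.β (n + 1) / P.b (n + 1))) * (x - y) := by
        unfold Par.d
        field_simp
        ring
      have h8 : P.β (n + 1) / P.b (n + 1) ≤ 1 := by rw [div_le_one hb]; exact hβ1
      have h9 : 0 < P.β (n + 1) / P.b (n + 1) := div_pos hβ0 hb
      rw [e2, abs_mul, abs_of_pos (by positivity)]
      have := abs_nonneg (x - y)
      nlinarith
    linarith
  · intro x y
    refine le_trans (hσ1 _ _) (le_trans (hτ1 _ _) ?_)
    have := abs_nonneg (x - y)
    linarith
  · intro z hz
    unfold hm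
    rw [hσ3 (τ z) (hτ2 z), hτ3 z hz]

end Pool.Agent.Lib.MP_a6ceca_gt
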