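import Mathlib
import Pool.Agent.Lib.MP_a6ceca_gt.Spec

/-!
# MP_a6ceca_gt : D3, all fibres are homeomorphic to the same inverse limit
-/

set_option autoImplicit false
open Set Filter Topology

namespace Pool.Agent.Lib.MP_a6ceca_gt

theorem Homeo_K (P : Par) (hP : Good P) (n : ℕ) : 1 ≤ P.K n := by
  cases n with
  | zero => exact hP.hK0.ge
  | succ n =>
    rw [hP.hK n]
    have := hP.hC n
    linarith

theorem Homeo_N (P : Par) (hP : Good P) (n : ℕ) : 1 ≤ P.N n := by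
  induction n with
  | zero => exact hP.hN0.ge
  | succ n ih =>
    rw [hP.hN n]
    have h1 := Homeo_K P hP n
    have h2 : 1 ≤ P.K n ^ 3 := one_le_pow₀ h1
    nlinarith

theorem Homeo_cont (K : ℝ) (f : ℝ → ℝ) (hK : 0 ≤ K) (hf : ∀ x y, |f x - f y| ≤ K * |x - y|) :
    Continuous f := by
  have h : LipschitzWith ⟨K, hK⟩ f := by
    apply LipschitzWith.of_dist_le_mul
    intro x y
    rw [Real.dist_eq, Real.dist_eq]
    exact hf x y
  exact h.continuous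

theorem Homeo_e (P : Par) (hP : Good P) (n : ℕ) (hΛ : 1 ≤ P.Λ n) :
    4 * P.e n ≤ (1 / 4) ^ n / P.Λ n := by
  have h1 := Homeo_K P hP n
  have h2 := Homeo_N P hP n
  have h3 := (hP.he n).le
  have h4 := hP.hem n
  have hΛ0 : 0 < P.Λ n := by linarith
  rw [le_div_iff₀ hΛ0]
  refine le_trans ?_ h4
  have h5 : 1 ≤ P.N n ^ 2 := one_le_pow₀ h2
  have h6 : 1 ≤ P.K n * P.N n ^ 2 := by nlinarith
  have h7 : 0 ≤ P.e n * P.Λ n := by positivity
  have h8 : 8 * P.K n * P.e n * P.N n ^ 2 * P.Λ n = 8 * (P.K n * P.N n ^ 2) * (P.e n * P.Λ n) := by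
    ring
  rw [h8]
  nlinarith

theorem Homeo_second (P : Par) (hP : Good P) (n : ℕ) (hΛ : 1 ≤ P.Λ n)
    (hΛ' : P.Λ n ≤ P.Λ (n + 1)) (x : ℝ)
    (hx : x ≤ 4 * (1 / 4) ^ (n + 1) / (P.N (n + 1) ^ 2 * P.Λ (n + 1))) :
    4 * P.K n ^ 2 * x ≤ (1 / 4) ^ n / P.Λ n := by
  have h1 := Homeo_K P hP n
  have h2 := Homeo_N P hP n
  have h3 := Homeo_N P hP (n + 1)
  have h4 := hP.hN n
  have hΛ0 : 0 < P.Λ n := by linarith
  have hΛ1 : 0 < P.Λ (n + 1) := by linarith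
  have h5 : 4 * P.K n ^ 2 ≤ P.N (n + 1) := by
    rw [h4]
    have h6 : P.K n ^ 2 ≤ P.K n ^ 3 := pow_le_pow_right₀ h1 (by norm_num)
    have h7 : 0 ≤ P.K n ^ 3 := by positivity
    nlinarith
  have h6 : 4 * P.K n ^ 2 ≤ P.N (n + 1) ^ 2 := by nlinarith
  have h7 : (0 : ℝ) < (1 / 4) ^ n := by positivity
  have h8 : 0 ≤ 4 * P.K n ^ 2 := by positivity
  have hN2 : 0 < P.N (n + 1) ^ 2 := by positivity
  calc 4 * P.K n ^ 2 * x
      ≤ 4 * P.K n ^ 2 * (4 * (1 / 4) ^ (n + 1) / (P.N (n + 1) ^ 2 * P.Λ (n + 1))) :=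
        mul_le_mul_of_nonneg_left hx h8
    _ = (4 * P.K n ^ 2 / P.N (n + 1) ^ 2) * ((1 / 4) ^ n / P.Λ (n + 1)) := by
        have h9 : (4 : ℝ) * (1 / 4) ^ (n + 1) = (1 / 4) ^ n := by
          rw [pow_succ]
          ring
        rw [h9]
        field_simp
    _ ≤ 1 * ((1 / 4) ^ n / P.Λ (n + 1)) := by
        apply mul_le_mul_of_nonneg_right _ (by positivity)
        rw [div_le_one hN2]
        exact h6
    _ = (1 / 4) ^ n / P.Λ (n + 1) := one_mul _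
    _ ≤ (1 / 4) ^ n / P.Λ n := div_le_div_of_nonneg_left h7.le hΛ0 hΛ'

theorem Homeo_side (h2 : CloseStmt) (h3 : SurjStmt) (h4 : FibTopStmt) (h6 : AILStmt)
    (h7 : ShearStmt) (P : Par) (hP : Good P) (t : ℝ × ℝ) (k a : ℕ → ℝ → ℝ)
    (hk : ∀ n, Sp (4 * P.K n ^ 3) (k n)) (ha : ∀ n, Sp (P.K n) (a n))
    (hc : ∀ n, ∀ z ∈ Fib P t,
      |a n (wn P n z) - k n (a (n + 1) (wn P (n + 1) z))| ≤ 2 * P.K n * P.e n)
    (hs : ∀ n, ∀ z ∈ Fib P t, ∀ z' ∈ Fib P t, |wn P n z - wn P n z'| ≤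
      4 * P.e n + 4 * P.K n ^ 2 * |a (n + 1) (wn P (n + 1) z) - a (n + 1) (wn P (n + 1) z')|) :
    Nonempty (Fib P t ≃ₜ InvLim k) := by
  obtain ⟨hΛ1, hΛmono, hclose⟩ := h2 P hP
  obtain ⟨-, -, -, -, hwc, -, -, -⟩ := h7 P hP
  have hcomp : CompactSpace (Fib P t) := isCompact_iff_compactSpace.1 (h4 P hP t).1
  refine h6 (Fib P t) k (fun n z => a n (wn P n z)) (fun n => 4 * P.K n ^ 3)
    (fun n => 2 * P.K n * P.e n) P.N P.Λ ?_ (fun n => (hk n).1) (fun n => (hk n).2.1) ?_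
    (fun n x => (ha n).2.1 _) (fun n x => hc n x x.2) hP.hN0 hP.hN hΛ1 hΛmono ?_ ?_ ?_
  · intro n
    have h1 := Homeo_K P hP n
    have h2 : 1 ≤ P.K n ^ 3 := one_le_pow₀ h1
    change 1 ≤ 4 * P.K n ^ 3
    linarith
  · intro n
    have h1 := Homeo_K P hP n
    exact (Homeo_cont (P.K n) (a n) (by linarith) (ha n).1).comp
      ((hwc n).comp continuous_subtype_val)
  · intro n
    refine le_trans ?_ (hP.hem n)
    have h1 := Homeo_K P hP n
    have h2 := Homeo_N P hP n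
    have h3 := (hP.he n).le
    have h5 := hΛ1 n
    have h8 : 0 ≤ P.K n * P.e n * P.N n ^ 2 * P.Λ n := by positivity
    change 2 * P.K n * P.e n * P.N n ^ 2 * P.Λ n ≤ _
    nlinarith
  · intro x y hxy
    apply Subtype.ext
    have hle : ∀ n : ℕ, dist (x : ℝ × ℝ) (y : ℝ × ℝ) ≤ 3 * (1 / 2) ^ n := by
      intro n
      have e1 := hs n x x.2 y y.2
      have e2 := Homeo_second P hP n (hΛ1 n) (hΛmono n) _ (hxy (n + 1))
      have e3 := Homeo_e P hP n (hΛ1 n)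
      have e4 : |wn P n x - wn P n y| ≤ 2 * ((1 / 4) ^ n / P.Λ n) := by linarith
      have e5 := hclose n x y
      have hqx : q P x = t := x.2
      have hqy : q P y = t := y.2
      rw [hqx, hqy, dist_self] at e5
      have hΛ0 : 0 < P.Λ n := by
        have := hΛ1 n
        linarith
      have e6 : P.Λ n * |wn P n x - wn P n y| ≤ 2 * (1 / 4) ^ n := by
        calc P.Λ n * |wn P n x - wn P n y| ≤ P.Λ n * (2 * ((1 / 4) ^ n / P.Λ n)) :=
              mul_le_mul_of_nonneg_left e4 hΛ0.le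
          _ = 2 * (1 / 4) ^ n := by field_simp
      have e7 := hP.hsm n
      have e8 : ((1 : ℝ) / 4) ^ n ≤ (1 / 2) ^ n :=
        pow_le_pow_left₀ (by norm_num) (by norm_num) n
      have e9 : P.Λ n * (4 * P.α n + 2 * P.b (n + 1) + 0 + |wn P n x - wn P n y|)
          = P.Λ n * (4 * P.α n + 2 * P.b (n + 1)) + P.Λ n * |wn P n x - wn P n y| := by ring
      rw [e9] at e5
      linarith
    have hlim : Tendsto (fun n : ℕ => (3 : ℝ) * (1 / 2) ^ n) atTop (𝓝 (3 * 0)) :=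
      (tendsto_pow_atTop_nhds_zero_of_lt_one (by norm_num) (by norm_num)).const_mul 3
    rw [mul_zero] at hlim
    have h0 : dist (x : ℝ × ℝ) (y : ℝ × ℝ) ≤ 0 := ge_of_tendsto' hlim hle
    exact dist_le_zero.1 h0
  · intro n z hz
    obtain ⟨-, -, s, -, hs1, hs2⟩ := ha n
    obtain ⟨w, hw, hwn⟩ := h3 P hP t n (s z) (hs1 z)
    refine ⟨⟨w, hw⟩, ?_⟩
    change a n (wn P n w) = z
    rw [hwn]
    exact hs2 z hz

theorem homeoStmt (h1 : QLimStmt) (h2 : CloseStmt) (h3 : SurjStmt) (h4 : FibTopStmt)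
    (h5 : LadderStmt) (h6 : AILStmt) (h7 : ShearStmt) : HomeoStmt := by
  intro P hP t t'
  obtain ⟨k, a, a', hk, ha, ha', hc, hc', hs, hs'⟩ := h5 P hP t t'
  exact ⟨k, fun n => ⟨_, hk n⟩, Homeo_side h2 h3 h4 h6 h7 P hP t k a hk ha hc hs,
    Homeo_side h2 h3 h4 h6 h7 P hP t' k a' hk ha' hc' hs'⟩

end Pool.Agent.Lib.MP_a6ceca_gt
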