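import Mathlib
import Pool.Agent.Lib.MP_a6ceca_gt.Spec

/-!
# MP_a6ceca_gt, item D1 : the ladder
-/

set_option autoImplicit false
open Set Filter Topology

namespace Pool.Agent.Lib.MP_a6ceca_gt

lemma ladder_main {P : Par} (hP : Good P) (h3 : HMapStmt) (h5 : CouplingStmt) (n : ℕ) (t : ℝ × ℝ)
    (a b c k : ℝ → ℝ) (hb : Sp (4 * P.K n ^ 2) b)
    (ha : Sp (P.K n) a) (hK : 1 ≤ P.K n) (hc : ∀ r, |r| ≤ 1 → |P.G n r - b (c r)| ≤ P.e n)
    (hk : ∀ r, k r = a (b r)) :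
    (∀ z ∈ Fib P t, |a (wn P n z) - k (c (hm P n t (wn P (n + 1) z)))| ≤ 2 * P.K n * P.e n) ∧
    (∀ z ∈ Fib P t, ∀ z' ∈ Fib P t, |wn P n z - wn P n z'| ≤
      4 * P.e n + 4 * P.K n ^ 2 *
        |c (hm P n t (wn P (n + 1) z)) - c (hm P n t (wn P (n + 1) z'))|) := by
  have hh := (h3 P hP n t).2.1
  have key : ∀ z ∈ Fib P t,
      |wn P n z - b (c (hm P n t (wn P (n + 1) z)))| ≤ 2 * P.e n := by
    intro z hz
    have e1 := h5 P hP n z
    have hz' : q P z = t := hz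
    rw [hz'] at e1
    have e2 := hc (hm P n t (wn P (n + 1) z)) (hh _)
    have e3 := abs_sub_le (wn P n z) (P.G n (hm P n t (wn P (n + 1) z)))
      (b (c (hm P n t (wn P (n + 1) z))))
    linarith
  refine ⟨?_, ?_⟩
  · intro z hz
    have e1 := key z hz
    rw [hk]
    have e2 := ha.1 (wn P n z) (b (c (hm P n t (wn P (n + 1) z))))
    have hK0 : 0 ≤ P.K n := by linarith
    have e3 := mul_le_mul_of_nonneg_left e1 hK0
    linarith
  · intro z hz z' hz'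
    have e1 := key z hz
    have e2 := key z' hz'
    have e3 := hb.1 (c (hm P n t (wn P (n + 1) z))) (c (hm P n t (wn P (n + 1) z')))
    have e4 := abs_sub_le (wn P n z) (b (c (hm P n t (wn P (n + 1) z)))) (wn P n z')
    have e5 := abs_sub_le (b (c (hm P n t (wn P (n + 1) z))))
      (b (c (hm P n t (wn P (n + 1) z')))) (wn P n z')
    have e6 : |b (c (hm P n t (wn P (n + 1) z'))) - wn P n z'|
        = |wn P n z' - b (c (hm P n t (wn P (n + 1) z')))| := abs_sub_comm _ _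
    linarith

lemma ladder_Kge {P : Par} (hP : Good P) (n : ℕ) : 1 ≤ P.K n := by
  cases n with
  | zero => rw [hP.hK0]
  | succ n =>
    rw [hP.hK n]
    have := hP.hC n
    linarith

theorem ladderStmt (h1 : BasicStmt) (h2 : AmalgStmt) (h3 : HMapStmt) (_h4 : ShearStmt)
    (h5 : CouplingStmt) : LadderStmt := by
  intro P hP t t'
  have step : ∀ (n : ℕ) (p : (ℝ → ℝ) × (ℝ → ℝ)), Sp (P.K n) p.1 ∧ Sp (P.K n) p.2 →
      ∃ (p' : (ℝ → ℝ) × (ℝ → ℝ)) (k : ℝ → ℝ),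
        (Sp (P.K (n + 1)) p'.1 ∧ Sp (P.K (n + 1)) p'.2) ∧ Sp (4 * P.K n ^ 3) k ∧
        (∀ z ∈ Fib P t, |p.1 (wn P n z) - k (p'.1 (wn P (n + 1) z))| ≤ 2 * P.K n * P.e n) ∧
        (∀ z ∈ Fib P t', |p.2 (wn P n z) - k (p'.2 (wn P (n + 1) z))| ≤ 2 * P.K n * P.e n) ∧
        (∀ z ∈ Fib P t, ∀ z' ∈ Fib P t, |wn P n z - wn P n z'| ≤
          4 * P.e n + 4 * P.K n ^ 2 *
            |p'.1 (wn P (n + 1) z) - p'.1 (wn P (n + 1) z')|) ∧
        (∀ z ∈ Fib P t', ∀ z' ∈ Fib P t', |wn P n z - wn P n z'| ≤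
          4 * P.e n + 4 * P.K n ^ 2 *
            |p'.2 (wn P (n + 1) z) - p'.2 (wn P (n + 1) z')|) := by
    rintro n ⟨a, a'⟩ ⟨ha, ha'⟩
    have hK := ladder_Kge hP n
    have hK0 : 0 ≤ P.K n := by linarith
    obtain ⟨b, b', hb, hb', hab⟩ := h2 (P.K n) a a' hK ha ha'
    obtain ⟨c, hc, hGc⟩ := hP.hU n b hb
    obtain ⟨c', hc', hGc'⟩ := hP.hU n b' hb'
    have hC0 : 0 ≤ P.C n := by linarith [hP.hC n]
    have s1 : Sp (P.C n * 32) (fun x => c (hm P n t x)) :=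
      h1.2.2 (P.C n) 32 c (hm P n t) hC0 (by norm_num) hc (h3 P hP n t)
    have s2 : Sp (P.C n * 32) (fun x => c' (hm P n t' x)) :=
      h1.2.2 (P.C n) 32 c' (hm P n t') hC0 (by norm_num) hc' (h3 P hP n t')
    have s3 : Sp (P.K n * (4 * P.K n ^ 2)) (fun x => a (b x)) :=
      h1.2.2 (P.K n) (4 * P.K n ^ 2) a b hK0 (by positivity) ha hb
    have eqC : P.C n * 32 = P.K (n + 1) := by rw [hP.hK n]; ring
    have eqK : P.K n * (4 * P.K n ^ 2) = 4 * P.K n ^ 3 := by ring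
    rw [eqC] at s1 s2
    rw [eqK] at s3
    have m1 := ladder_main hP h3 h5 n t a b c (fun x => a (b x)) hb ha hK hGc (fun r => rfl)
    have m2 := ladder_main hP h3 h5 n t' a' b' c' (fun x => a (b x)) hb' ha' hK hGc'
      (fun r => hab r)
    exact ⟨(fun x => c (hm P n t x), fun x => c' (hm P n t' x)), fun x => a (b x), ⟨s1, s2⟩, s3,
      m1.1, m2.1, m1.2, m2.2⟩
  choose! nx kk H using step
  let S : ℕ → (ℝ → ℝ) × (ℝ → ℝ) := fun n => Nat.rec (cl, cl) (fun n p => nx n p) n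
  have hS1 : ∀ n, S (n + 1) = nx n (S n) := fun n => rfl
  have hS : ∀ n, Sp (P.K n) (S n).1 ∧ Sp (P.K n) (S n).2 := by
    intro n
    induction n with
    | zero =>
      rw [hP.hK0]
      exact ⟨h1.1, h1.1⟩
    | succ n ih =>
      rw [hS1]
      exact (H n (S n) ih).1
  refine ⟨fun n => kk n (S n), fun n => (S n).1, fun n => (S n).2, fun n => (H n (S n) (hS n)).2.1,
    fun n => (hS n).1, fun n => (hS n).2, ?_, ?_, ?_, ?_⟩
  · intro n z hz
    exact (H n (S n) (hS n)).2.2.1 z hz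
  · intro n z hz
    exact (H n (S n) (hS n)).2.2.2.1 z hz
  · intro n z hz z' hz'
    exact (H n (S n) (hS n)).2.2.2.2.1 z hz z' hz'
  · intro n z hz z' hz'
    exact (H n (S n) (hS n)).2.2.2.2.2 z hz z' hz'

end Pool.Agent.Lib.MP_a6ceca_gt
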