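import Mathlib
import Pool.Agent.Lib.MP_a6ceca_gt.Spec

set_option autoImplicit false
open Set Filter Topology TopologicalSpace

namespace Pool.Agent.Lib.MP_a6ceca_gt

/-- The plane as `ℝ × ℝ`. -/
noncomputable def ee : EuclideanSpace ℝ (Fin 2) ≃ₜ ℝ × ℝ :=
  (EuclideanSpace.equiv (Fin 2) ℝ).toHomeomorph.trans Homeomorph.finTwoArrow

lemma ee_apply (p : EuclideanSpace ℝ (Fin 2)) : ee p = (p 0, p 1) := rfl

lemma dist_le_two_ee (p p' : EuclideanSpace ℝ (Fin 2)) :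
    dist p p' ≤ 2 * dist (ee p) (ee p') := by
  rw [EuclideanSpace.dist_eq, Fin.sum_univ_two, ee_apply, ee_apply, Prod.dist_eq]
  set a := dist (p.ofLp 0) (p'.ofLp 0)
  set b := dist (p.ofLp 1) (p'.ofLp 1)
  have ha : 0 ≤ a := dist_nonneg
  have hb : 0 ≤ b := dist_nonneg
  have h1 : a ≤ max a b := le_max_left _ _
  have h2 : b ≤ max a b := le_max_right _ _
  have h3 : 0 ≤ max a b := le_trans ha h1
  calc Real.sqrt (a ^ 2 + b ^ 2) ≤ Real.sqrt ((2 * max a b) ^ 2) := by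
        apply Real.sqrt_le_sqrt
        nlinarith
    _ = 2 * max a b := Real.sqrt_sq (by linarith)

theorem mainNeg (hPar : ParExStmt) (hShear : ShearStmt) (hQ : QLimStmt) (hSurj : SurjStmt)
    (hTop : FibTopStmt) (hCont : FibContStmt) (hHomeo : HomeoStmt) (hNon : NonHIStmt) :
    ¬ (∀ (X : Type) [TopologicalSpace X] [MetrizableSpace X] [CompactSpace X]
      [ConnectedSpace X] [Nontrivial X],
      (∃ f : EuclideanSpace ℝ (Fin 2) → Set (EuclideanSpace ℝ (Fin 2)),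
        (∀ p, p ∈ f p) ∧
        (∀ p q, q ∈ f p → f q = f p) ∧
        (∀ p, Nonempty (↥(f p) ≃ₜ X)) ∧
        (∀ p, ∀ ε > (0 : ℝ), ∃ δ > (0 : ℝ), ∀ q,
          dist p q < δ → Metric.hausdorffDist (f p) (f q) < ε)) →
      ((∀ A B : Set X, IsClosed A → IsConnected A → IsClosed B → IsConnected B →
          (A ∩ B).Nonempty → A ⊆ B ∨ B ⊆ A) ∧
       (∀ 𝒰 : Set (Set X), (∀ u ∈ 𝒰, IsOpen u) → ⋃₀ 𝒰 = Set.univ →
          ∃ (n : ℕ) (U : Fin n → Set X),
            (∀ i, IsOpen (U i)) ∧ (⋃ i, U i) = Set.univ ∧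
            (∀ i, ∃ u ∈ 𝒰, U i ⊆ u) ∧
            (∀ i j, (U i ∩ U j).Nonempty ↔
              ((i : ℕ) ≤ (j : ℕ) + 1 ∧ (j : ℕ) ≤ (i : ℕ) + 1))))) := by
  obtain ⟨P, hP⟩ := hPar
  intro H
  have hqc : Continuous (q P) := (hQ P hP).2.2.2.1
  haveI hc : CompactSpace (Fib P (0, 0)) := isCompact_iff_compactSpace.mp (hTop P hP (0, 0)).1
  haveI hco : ConnectedSpace (Fib P (0, 0)) := isConnected_iff_connectedSpace.mp (hTop P hP (0, 0)).2
  haveI hnt : Nontrivial (Fib P (0, 0)) := by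
    obtain ⟨w1, hw1, h1⟩ := hSurj P hP (0, 0) 0 1 (by norm_num)
    obtain ⟨w2, hw2, h2⟩ := hSurj P hP (0, 0) 0 (-1) (by norm_num)
    refine ⟨⟨w1, hw1⟩, ⟨w2, hw2⟩, fun h => ?_⟩
    have h3 : w1 = w2 := congrArg Subtype.val h
    rw [h3, h2] at h1
    norm_num at h1
  have key := (H (Fib P (0, 0)) ⟨fun p => ee ⁻¹' (Fib P (q P (ee p))), ?_, ?_, ?_, ?_⟩).1
  · -- not hereditarily indecomposable
    obtain ⟨k, hk, ⟨φ⟩, -⟩ := hHomeo P hP (0, 0) (0, 0)
    obtain ⟨A, B, hA, hAc, hB, hBc, hAB, hnAB, hnBA⟩ := hNon k hk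
    have hpc : ∀ C : Set (InvLim k), IsConnected C → IsConnected (φ ⁻¹' C) := fun C hC =>
      (φ.isConnected_preimage).mpr hC
    rcases key (φ ⁻¹' A) (φ ⁻¹' B) (hA.preimage φ.continuous) (hpc A hAc)
      (hB.preimage φ.continuous) (hpc B hBc) (by
        obtain ⟨x, hx⟩ := hAB
        refine ⟨φ.symm x, ?_, ?_⟩
        · change φ (φ.symm x) ∈ A
          rw [φ.apply_symm_apply]; exact hx.1
        · change φ (φ.symm x) ∈ B
          rw [φ.apply_symm_apply]; exact hx.2) with h | h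
    · apply hnAB
      intro x hx
      have := h (show φ.symm x ∈ φ ⁻¹' A by
        change φ (φ.symm x) ∈ A
        rw [φ.apply_symm_apply]; exact hx)
      change φ (φ.symm x) ∈ B at this
      rwa [φ.apply_symm_apply] at this
    · apply hnBA
      intro x hx
      have := h (show φ.symm x ∈ φ ⁻¹' B by
        change φ (φ.symm x) ∈ B
        rw [φ.apply_symm_apply]; exact hx)
      change φ (φ.symm x) ∈ A at this
      rwa [φ.apply_symm_apply] at this
  · intro p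
    exact rfl
  · intro p p' hp'
    have h : q P (ee p') = q P (ee p) := hp'
    simp only [h]
  · intro p
    obtain ⟨k, -, ⟨φ1⟩, ⟨φ2⟩⟩ := hHomeo P hP (q P (ee p)) (0, 0)
    have φ0 : ↥(ee ⁻¹' (Fib P (q P (ee p)))) ≃ₜ ↥(Fib P (q P (ee p))) :=
      ee.subtype (fun x => Iff.rfl)
    exact ⟨φ0.trans (φ1.trans φ2.symm)⟩
  · intro p ε hε
    obtain ⟨δ1, hδ1, h1⟩ := hCont P hP (ε / 4) (by linarith)
    have hcp : ContinuousAt (fun p' => q P (ee p')) p :=
      (hqc.comp ee.continuous).continuousAt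
    obtain ⟨δ, hδ, h2⟩ := Metric.continuousAt_iff.mp hcp δ1 hδ1
    refine ⟨δ, hδ, fun p' hp' => ?_⟩
    have h3 : dist (q P (ee p')) (q P (ee p)) < δ1 := h2 (by rwa [dist_comm])
    have half : ∀ t t' : ℝ × ℝ, dist t t' < δ1 → ∀ x ∈ ee ⁻¹' (Fib P t),
        ∃ y ∈ ee ⁻¹' (Fib P t'), dist x y ≤ ε / 2 := by
      intro t t' htt x hx
      obtain ⟨z', hz', hd⟩ := h1 t t' htt (ee x) hx
      refine ⟨ee.symm z', ?_, ?_⟩
      · change ee (ee.symm z') ∈ Fib P t'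
        rwa [ee.apply_symm_apply]
      · have := dist_le_two_ee x (ee.symm z')
        rw [ee.apply_symm_apply] at this
        linarith
    have h4 : Metric.hausdorffDist (ee ⁻¹' (Fib P (q P (ee p)))) (ee ⁻¹' (Fib P (q P (ee p'))))
        ≤ ε / 2 := by
      apply Metric.hausdorffDist_le_of_mem_dist (by linarith)
      · exact half _ _ (by rwa [dist_comm])
      · exact half _ _ h3
    exact lt_of_le_of_lt h4 (by linarith)

end Pool.Agent.Lib.MP_a6ceca_gt
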