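import Mathlib
import Pool.Agent.Lib.MP_a6ceca_gt.Spec

/-!
# MP_a6ceca_gt, item A4: finite nets of split epimorphisms
-/

set_option autoImplicit false
open Set Filter Topology

namespace Pool.Agent.Lib.MP_a6ceca_gt

theorem netStmt : NetStmt := by
  intro K ε hK hε
  obtain ⟨M, hM⟩ := exists_nat_gt (4 * K / ε)
  have hM0 : (0 : ℝ) < M := lt_of_le_of_lt (by positivity) hM
  have hKM : K / M ≤ ε / 4 := by
    rw [div_lt_iff₀ hε] at hM
    rw [div_le_iff₀ hM0]
    linarith
  set ev : (ℝ → ℝ) → (Fin (2 * M + 1) → ℝ) := fun b i => b (((i.val : ℝ) - M) / M) with hev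
  have hsub : ev '' {b | Sp K b} ⊆ Metric.closedBall (0 : Fin (2 * M + 1) → ℝ) 1 := by
    rintro _ ⟨b, hb, rfl⟩
    rw [mem_closedBall_zero_iff, pi_norm_le_iff_of_nonneg zero_le_one]
    intro i
    exact hb.2.1 _
  have htb : TotallyBounded (ev '' {b | Sp K b}) :=
    (isCompact_closedBall (0 : Fin (2 * M + 1) → ℝ) 1).totallyBounded.subset hsub
  obtain ⟨t, ht1, ht2, ht3⟩ := htb.exists_subset (Metric.dist_mem_uniformity (by linarith : 0 < ε / 4))
  obtain ⟨u, hu1, hu2, hu3⟩ := (Set.exists_subset_image_finite_and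
    (p := fun t => ev '' {b | Sp K b} ⊆ ⋃ y ∈ t, {x | dist x y < ε / 4})).mp
    ⟨t, ht1, ht2, ht3⟩
  refine ⟨hu2.toFinset.toList, ?_, ?_⟩
  · intro b hb
    rw [Finset.mem_toList, Set.Finite.mem_toFinset] at hb
    exact hu1 hb
  · intro b hb
    have h1 : ev b ∈ ev '' {b | Sp K b} := ⟨b, hb, rfl⟩
    have h2 := hu3 h1
    simp only [Set.mem_iUnion, Set.mem_ofPred_eq] at h2
    obtain ⟨_, ⟨b', hb', rfl⟩, hd⟩ := h2
    refine ⟨b', ?_, ?_⟩
    · rw [Finset.mem_toList, Set.Finite.mem_toFinset]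
      exact hb'
    · intro r hr
      have hr' := abs_le.mp hr
      have hnn : 0 ≤ (r + 1) * M := mul_nonneg (by linarith) hM0.le
      have hf1 := Nat.floor_le hnn
      have hf2 := Nat.lt_floor_add_one ((r + 1) * M)
      have hi : ⌊(r + 1) * M⌋₊ < 2 * M + 1 := by
        have h3 : (⌊(r + 1) * M⌋₊ : ℝ) ≤ 2 * M := by nlinarith
        have h4 : ⌊(r + 1) * M⌋₊ ≤ 2 * M := by exact_mod_cast h3
        omega
      set i : Fin (2 * M + 1) := ⟨⌊(r + 1) * M⌋₊, hi⟩ with hidef
      have hx : |r - ((i.val : ℝ) - M) / M| ≤ 1 / M := by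
        have e : r - ((i.val : ℝ) - M) / M = ((r + 1) * M - (⌊(r + 1) * M⌋₊ : ℝ)) / M := by
          rw [hidef]
          field_simp
          ring
        rw [e, abs_of_nonneg (div_nonneg (by linarith) hM0.le)]
        exact div_le_div_of_nonneg_right (by linarith) hM0.le
      have hlip : ∀ f : ℝ → ℝ, Sp K f → |f r - f (((i.val : ℝ) - M) / M)| ≤ ε / 4 := by
        intro f hf
        refine (hf.1 _ _).trans ?_
        refine (mul_le_mul_of_nonneg_left hx hK).trans ?_
        rw [mul_one_div]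
        exact hKM
      have h5 := hlip b hb
      have h6 := hlip b' (hu1 hb')
      have h7 : |b (((i.val : ℝ) - M) / M) - b' (((i.val : ℝ) - M) / M)| ≤ ε / 4 := by
        have h8 := (dist_le_pi_dist (ev b) (ev b') i).trans hd.le
        rw [Real.dist_eq] at h8
        exact h8
      have e : b r - b' r = (b r - b (((i.val : ℝ) - M) / M)) +
          (b (((i.val : ℝ) - M) / M) - b' (((i.val : ℝ) - M) / M)) -
          (b' r - b' (((i.val : ℝ) - M) / M)) := by ring
      rw [abs_le] at h5 h6 h7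
      rw [e, abs_le]
      constructor <;> linarith [h5.1, h5.2, h6.1, h6.2, h7.1, h7.2]

end Pool.Agent.Lib.MP_a6ceca_gt
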