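import Pool.Agent.Lib.MP_a6ceca_gt.Spec

/-!
# D4: an inverse limit of split epimorphisms contains an arc
-/

set_option autoImplicit false
open Set Filter Topology

namespace Pool.Agent.Lib.MP_a6ceca_gt

private lemma nonHI_cl_cont : Continuous cl := by
  unfold cl
  fun_prop

private lemma nonHI_cl_abs (x : ℝ) : |cl x| ≤ 1 := by
  unfold cl
  rw [abs_le]
  exact ⟨le_max_left _ _, max_le (by norm_num) (min_le_right _ _)⟩

private lemma nonHI_cl_eq {x : ℝ} (h1 : -1 ≤ x) (h2 : x ≤ 1) : cl x = x := by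
  unfold cl
  rw [min_eq_left h2, max_eq_right h1]

private lemma nonHI_cont_of_lip {s : ℝ → ℝ} {K : ℝ} (h : ∀ x y, |s x - s y| ≤ K * |x - y|) :
    Continuous s := by
  have hK : ∀ x y, |s x - s y| ≤ max K 0 * |x - y| := fun x y =>
    (h x y).trans (mul_le_mul_of_nonneg_right (le_max_left _ _) (abs_nonneg _))
  have : LipschitzWith ⟨max K 0, le_max_right _ _⟩ s := by
    apply LipschitzWith.of_dist_le_mul
    intro x y
    rw [Real.dist_eq, Real.dist_eq]
    exact hK x y
  exact this.continuous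

/-- The path. -/
private noncomputable def nonHIPath (s : ℕ → ℝ → ℝ) (r : ℝ) : ℕ → ℝ
  | 0 => cl r
  | n + 1 => s n (nonHIPath s r n)

theorem nonHIStmt : NonHIStmt := by
  intro k hk
  choose K hK using hk
  have hs : ∀ n, ∃ s : ℝ → ℝ, (∀ x y, |s x - s y| ≤ K n * |x - y|) ∧ (∀ x, |s x| ≤ 1) ∧
      ∀ z, |z| ≤ 1 → k n (s z) = z := fun n => (hK n).2.2
  choose s hs1 hs2 hs3 using hs
  have hc : ∀ n, Continuous fun r => nonHIPath s r n := by
    intro n
    induction n with
    | zero => exact nonHI_cl_cont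
    | succ n ih => exact (nonHI_cont_of_lip (hs1 n)).comp ih
  have hb : ∀ r n, |nonHIPath s r n| ≤ 1 := by
    intro r n
    cases n with
    | zero => exact nonHI_cl_abs r
    | succ n => exact hs2 n _
  have hmem : ∀ r, nonHIPath s r ∈ InvLim k := by
    intro r n
    exact ⟨hb r n, (hs3 n _ (hb r n)).symm⟩
  obtain ⟨γ, hγ⟩ : ∃ γ : ℝ → InvLim k, ∀ r, (γ r : ℕ → ℝ) = nonHIPath s r :=
    ⟨fun r => ⟨nonHIPath s r, hmem r⟩, fun _ => rfl⟩
  have hγc : Continuous γ := by
    rw [Topology.IsInducing.subtypeVal.continuous_iff]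
    apply continuous_pi
    intro n
    have : (fun r => (Subtype.val ∘ γ) r n) = fun r => nonHIPath s r n := by
      funext r
      simp only [Function.comp_apply, hγ]
    rw [this]
    exact hc n
  have h0 : ∀ r, -1 ≤ r → r ≤ 1 → (γ r : ℕ → ℝ) 0 = r := by
    intro r h1 h2
    rw [hγ]
    exact nonHI_cl_eq h1 h2
  refine ⟨γ '' Icc (-1) 0, γ '' Icc 0 1, ?_, ?_, ?_, ?_, ?_, ?_, ?_⟩
  · exact (isCompact_Icc.image hγc).isClosed
  · exact (isConnected_Icc (by norm_num)).image _ hγc.continuousOn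
  · exact (isCompact_Icc.image hγc).isClosed
  · exact (isConnected_Icc (by norm_num)).image _ hγc.continuousOn
  · exact ⟨γ 0, ⟨0, by constructor <;> norm_num, rfl⟩, ⟨0, by constructor <;> norm_num, rfl⟩⟩
  · intro h
    obtain ⟨r, hr, he⟩ := h ⟨-1, by constructor <;> norm_num, rfl⟩
    have h1 := h0 r (by linarith [hr.1]) hr.2
    rw [he, h0 (-1) le_rfl (by norm_num)] at h1
    linarith [hr.1]
  · intro h
    obtain ⟨r, hr, he⟩ := h ⟨1, by constructor <;> norm_num, rfl⟩
    have h1 := h0 r hr.1 (by linarith [hr.2])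
    rw [he, h0 1 (by norm_num) le_rfl] at h1
    linarith [hr.2]

end Pool.Agent.Lib.MP_a6ceca_gt
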