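import Mathlib
import Pool.Agent.Lib.MP_a6ceca_gt.Spec

/-!
# MP_a6ceca_gt: existence of the parameters
-/

set_option autoImplicit false
open Set Filter Topology

namespace Pool.Agent.Lib.MP_a6ceca_gt

/-- state of the recursion -/
structure ParExSt where
  b : ℝ
  K : ℝ
  Λ : ℝ
  N : ℝ
  ρ : ℝ

namespace ParExSt

variable (Lf Cf : ℝ → ℝ → ℝ)

noncomputable def e (n : ℕ) (s : ParExSt) : ℝ := (1 / 4) ^ n / (8 * s.K * s.N ^ 2 * s.Λ)
noncomputable def L (n : ℕ) (s : ParExSt) : ℝ := Lf (4 * s.K ^ 2) (e n s)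
noncomputable def C (n : ℕ) (s : ParExSt) : ℝ := Cf (4 * s.K ^ 2) (e n s)
noncomputable def α (n : ℕ) (s : ParExSt) : ℝ := min s.ρ ((1 / 2) ^ n / (8 * s.Λ))
noncomputable def b' (n : ℕ) (s : ParExSt) : ℝ :=
  min s.ρ (min (s.b / 4) ((1 / 2) ^ n / (4 * s.Λ)))

noncomputable def next (n : ℕ) (s : ParExSt) : ParExSt where
  b := b' n s
  K := 32 * C Cf n s
  Λ := s.Λ * ((1 + 8 * α n s / b' n s) * (1 + 4 * s.b * L Lf n s / α n s))
  N := s.N * (4 * s.K ^ 3)
  ρ := min (α n s / 4) (min (e n s * α n s / (16 * L Lf n s)) (e n s * b' n s / (64 * L Lf n s)))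

noncomputable def st : ℕ → ParExSt
  | 0 => ⟨1, 1, 1, 1, 1⟩
  | n + 1 => next Lf Cf n (st n)

structure Inv (s : ParExSt) : Prop where
  b : 0 < s.b
  K : 1 ≤ s.K
  Λ : 1 ≤ s.Λ
  N : 1 ≤ s.N
  ρ : 0 < s.ρ

variable {Lf Cf}

theorem Inv.e_pos {s : ParExSt} (h : Inv s) (n : ℕ) : 0 < e n s := by
  have h1 := h.K
  have h2 := h.Λ
  have h3 := h.N
  unfold e
  have : 0 < s.K := by linarith
  have : 0 < s.Λ := by linarith
  have : 0 < s.N := by linarith
  positivity

theorem Inv.α_pos {s : ParExSt} (h : Inv s) (n : ℕ) : 0 < α n s := by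
  have h2 := h.Λ
  have : 0 < s.Λ := by linarith
  exact lt_min h.ρ (by positivity)

theorem Inv.b'_pos {s : ParExSt} (h : Inv s) (n : ℕ) : 0 < b' n s := by
  have h2 := h.Λ
  have h3 := h.b
  have : 0 < s.Λ := by linarith
  exact lt_min h.ρ (lt_min (by positivity) (by positivity))

theorem Inv.K4 {s : ParExSt} (h : Inv s) : 1 ≤ 4 * s.K ^ 2 := by
  nlinarith [h.K]

theorem Inv.next {s : ParExSt} (h : Inv s) (n : ℕ) (hL : 1 ≤ L Lf n s) (hC : 1 ≤ C Cf n s) :
    Inv (next Lf Cf n s) := by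
  have hα := h.α_pos n
  have hb' := h.b'_pos n
  have he := h.e_pos n
  have hb := h.b
  have hLp : 0 < L Lf n s := by linarith
  refine ⟨hb', ?_, ?_, ?_, ?_⟩
  · show 1 ≤ 32 * C Cf n s
    linarith
  · show 1 ≤ s.Λ * ((1 + 8 * α n s / b' n s) * (1 + 4 * s.b * L Lf n s / α n s))
    have h1 : 0 ≤ 8 * α n s / b' n s := by positivity
    have h2 : 0 ≤ 4 * s.b * L Lf n s / α n s := by positivity
    have h3 : 1 ≤ (1 + 8 * α n s / b' n s) * (1 + 4 * s.b * L Lf n s / α n s) := by
      nlinarith [mul_nonneg h1 h2]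
    nlinarith [h.Λ]
  · show 1 ≤ s.N * (4 * s.K ^ 3)
    have h1 : 1 ≤ s.K ^ 3 := one_le_pow₀ h.K
    nlinarith [h.N]
  · show 0 < min (α n s / 4) (min (e n s * α n s / (16 * L Lf n s))
      (e n s * b' n s / (64 * L Lf n s)))
    exact lt_min (by positivity) (lt_min (by positivity) (by positivity))

end ParExSt

open ParExSt in
theorem parExStmt (h : UnivStmt) : ParExStmt := by
  unfold UnivStmt at h
  choose! Lf Cf Gf hL hC hG hU using h
  have inv : ∀ n, Inv (st Lf Cf n) := by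
    intro n
    induction n with
    | zero => exact ⟨by norm_num [st], by norm_num [st], by norm_num [st], by norm_num [st],
        by norm_num [st]⟩
    | succ n ih =>
      exact ih.next n (hL _ _ ih.K4 (ih.e_pos n)) (hC _ _ ih.K4 (ih.e_pos n))
  set s : ℕ → ParExSt := st Lf Cf with hs
  have hs1 : ∀ n, s (n + 1) = ParExSt.next Lf Cf n (s n) := fun n => rfl
  refine ⟨{ G := fun n => Gf (4 * (s n).K ^ 2) (ParExSt.e n (s n))
            α := fun n => ParExSt.α n (s n)
            b := fun n => (s n).b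
            e := fun n => ParExSt.e n (s n)
            L := fun n => ParExSt.L Lf n (s n)
            C := fun n => ParExSt.C Cf n (s n)
            K := fun n => (s n).K
            Λ := fun n => (s n).Λ
            N := fun n => (s n).N }, ?_⟩
  have hρ : ∀ n, (s (n + 1)).ρ = min (ParExSt.α n (s n) / 4)
      (min (ParExSt.e n (s n) * ParExSt.α n (s n) / (16 * ParExSt.L Lf n (s n)))
        (ParExSt.e n (s n) * (s (n + 1)).b / (64 * ParExSt.L Lf n (s n)))) := fun n => rfl
  have hαρ : ∀ n, ParExSt.α n (s n) ≤ (s n).ρ := fun n => min_le_left _ _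
  have hbρ : ∀ n, (s (n + 1)).b ≤ (s n).ρ := fun n => min_le_left _ _
  have hLn : ∀ n, 1 ≤ ParExSt.L Lf n (s n) := fun n => hL _ _ (inv n).K4 ((inv n).e_pos n)
  have hCn : ∀ n, 1 ≤ ParExSt.C Cf n (s n) := fun n => hC _ _ (inv n).K4 ((inv n).e_pos n)
  refine
    { hα := fun n => (inv n).α_pos n
      hα4 := ?_
      hb := fun n => (inv n).b
      hb0 := rfl
      hb4 := ?_
      he := fun n => (inv n).e_pos n
      hL := hLn
      hC := hCn
      hK0 := rfl
      hK := fun n => rfl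
      hG := fun n => hG _ _ (inv n).K4 ((inv n).e_pos n)
      hU := fun n => hU _ _ (inv n).K4 ((inv n).e_pos n)
      hΛ0 := rfl
      hΛ := fun n => rfl
      hN0 := rfl
      hN := fun n => rfl
      hcp := ?_
      hsm := ?_
      hem := ?_ }
  · intro n
    show 4 * ParExSt.α (n + 1) (s (n + 1)) ≤ ParExSt.α n (s n)
    have h1 := hαρ (n + 1)
    rw [hρ n] at h1
    have h2 := h1.trans (min_le_left _ _)
    linarith
  · intro n
    show 4 * (s (n + 1)).b ≤ (s n).b
    have h1 : (s (n + 1)).b ≤ (s n).b / 4 := (min_le_right _ _).trans (min_le_left _ _)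
    linarith
  · intro n
    show (4 * ParExSt.L Lf n (s n) / ParExSt.α n (s n)) * (2 * ParExSt.α (n + 1) (s (n + 1)) +
      8 * ParExSt.α n (s n) * (s (n + 2)).b / (s (n + 1)).b) ≤ ParExSt.e n (s n)
    have hα := (inv n).α_pos n
    have hb := (inv (n + 1)).b
    have he := (inv n).e_pos n
    have hLp : 0 < ParExSt.L Lf n (s n) := by linarith [hLn n]
    have h1 := hαρ (n + 1)
    rw [hρ n] at h1
    have h2 := h1.trans ((min_le_right _ _).trans (min_le_left _ _))
    have h3 := hbρ (n + 1)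
    rw [hρ n] at h3
    have h4 := h3.trans ((min_le_right _ _).trans (min_le_right _ _))
    rw [le_div_iff₀ (by positivity)] at h2 h4
    have hb2 := (inv (n + 2)).b
    have e1 : (4 * ParExSt.L Lf n (s n) / ParExSt.α n (s n)) *
        (2 * ParExSt.α (n + 1) (s (n + 1)) +
          8 * ParExSt.α n (s n) * (s (n + 2)).b / (s (n + 1)).b) =
        (ParExSt.α (n + 1) (s (n + 1)) * (16 * ParExSt.L Lf n (s n))) /
          (2 * ParExSt.α n (s n)) +
        ((s (n + 2)).b * (64 * ParExSt.L Lf n (s n))) / (2 * (s (n + 1)).b) := by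
      have hα' := hα.ne'
      have hb' : (s (n + 1)).b ≠ 0 := hb.ne'
      field_simp
      ring
    rw [e1]
    have h5 : (ParExSt.α (n + 1) (s (n + 1)) * (16 * ParExSt.L Lf n (s n))) /
        (2 * ParExSt.α n (s n)) ≤ ParExSt.e n (s n) / 2 := by
      rw [div_le_iff₀ (by positivity)]
      linarith
    have h6 : ((s (n + 2)).b * (64 * ParExSt.L Lf n (s n))) / (2 * (s (n + 1)).b) ≤
        ParExSt.e n (s n) / 2 := by
      rw [div_le_iff₀ (by positivity)]
      linarith
    linarith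
  · intro n
    show (s n).Λ * (4 * ParExSt.α n (s n) + 2 * (s (n + 1)).b) ≤ (1 / 2) ^ n
    have hΛ : 0 < (s n).Λ := by linarith [(inv n).Λ]
    have h1 : ParExSt.α n (s n) ≤ (1 / 2) ^ n / (8 * (s n).Λ) := min_le_right _ _
    have h2 : (s (n + 1)).b ≤ (1 / 2) ^ n / (4 * (s n).Λ) :=
      (min_le_right _ _).trans (min_le_right _ _)
    rw [le_div_iff₀ (by positivity)] at h1 h2
    nlinarith
  · intro n
    show 8 * (s n).K * ParExSt.e n (s n) * (s n).N ^ 2 * (s n).Λ ≤ (1 / 4) ^ n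
    have hK : (s n).K ≠ 0 := by have := (inv n).K; positivity
    have hN : (s n).N ≠ 0 := by have := (inv n).N; positivity
    have hΛ : (s n).Λ ≠ 0 := by have := (inv n).Λ; positivity
    apply le_of_eq
    unfold ParExSt.e
    field_simp

end Pool.Agent.Lib.MP_a6ceca_gt
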