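import Mathlib
import Pool.Agent.Lib.MP_a6ceca_gt.Spec

/-!
# C2 : the limit of the maps `qn`
-/

set_option autoImplicit false
open Set Filter Topology

namespace Pool.Agent.Lib.MP_a6ceca_gt

theorem QLim_x (h : TriStmt) (h' : ShearStmt) (P : Par) (hP : Good P) (n : ℕ) (z : ℝ × ℝ) :
    |(qn P n z).1 - (qn P (n + 1) z).1| ≤ P.α n := by
  have hx := (h' P hP).2.2.2.2.2.2.1 n z
  rw [hx, add_sub_cancel_left, abs_mul, abs_of_pos (hP.hα n)]
  calc P.α n * |tri ((qn P (n + 1) z).2 / P.d n)| ≤ P.α n * 1 :=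
        mul_le_mul_of_nonneg_left (h.2.1 _) (hP.hα n).le
    _ = P.α n := mul_one _

theorem QLim_y (h' : ShearStmt) (P : Par) (hP : Good P) (n : ℕ) (z : ℝ × ℝ) :
    |(qn P n z).2 - (qn P (n + 1) z).2| ≤ P.b n - P.b (n + 1) := by
  have hy := (h' P hP).2.2.2.2.2.2.2 n z
  have hw := (h' P hP).2.2.2.2.2.1 n z
  have hβ : 0 ≤ P.β n := by
    have h1 := hP.hb4 n
    have h2 := hP.hb (n + 1)
    unfold Par.β
    linarith
  rw [hy, add_sub_cancel_left, abs_mul, abs_of_nonneg hβ]
  calc P.β n * |wn P n z| ≤ P.β n * 1 := mul_le_mul_of_nonneg_left hw hβ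
    _ = P.b n - P.b (n + 1) := mul_one _

theorem QLim_xm (h : TriStmt) (h' : ShearStmt) (P : Par) (hP : Good P) (n m : ℕ) (hnm : n ≤ m)
    (z : ℝ × ℝ) : |(qn P n z).1 - (qn P m z).1| ≤ 2 * P.α n - 2 * P.α m := by
  induction m, hnm using Nat.le_induction with
  | base => simp
  | succ m hm ih =>
    have h1 := QLim_x h h' P hP m z
    have h2 := hP.hα4 m
    have h3 := hP.hα m
    have h4 := abs_sub_le (qn P n z).1 (qn P m z).1 (qn P (m + 1) z).1
    have h5 := hP.hα (m + 1)
    linarith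

theorem QLim_ym (h' : ShearStmt) (P : Par) (hP : Good P) (n m : ℕ) (hnm : n ≤ m)
    (z : ℝ × ℝ) : |(qn P n z).2 - (qn P m z).2| ≤ P.b n - P.b m := by
  induction m, hnm using Nat.le_induction with
  | base => simp
  | succ m hm ih =>
    have h1 := QLim_y h' P hP m z
    have h4 := abs_sub_le (qn P n z).2 (qn P m z).2 (qn P (m + 1) z).2
    linarith

theorem QLim_zero (a : ℕ → ℝ) (ha : ∀ n, 0 < a n) (h4 : ∀ n, 4 * a (n + 1) ≤ a n) :
    Tendsto a atTop (𝓝 0) := by
  have h1 : ∀ n, a n ≤ a 0 * (1 / 4) ^ n := by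
    intro n
    induction n with
    | zero => simp
    | succ n ih =>
      have h5 := h4 n
      rw [pow_succ]
      linarith
  have h2 : Tendsto (fun n : ℕ => a 0 * (1 / 4 : ℝ) ^ n) atTop (𝓝 0) := by
    have h3 := (tendsto_pow_atTop_nhds_zero_of_lt_one (r := (1 / 4 : ℝ)) (by norm_num)
      (by norm_num)).const_mul (a 0)
    rwa [mul_zero] at h3
  exact squeeze_zero (fun n => (ha n).le) h1 h2

/-- C2 -/
theorem qLimStmt (h : TriStmt) (h' : ShearStmt) : QLimStmt := by
  intro P hP
  have hα : Tendsto P.α atTop (𝓝 0) := QLim_zero P.α hP.hα hP.hα4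
  have hb : Tendsto P.b atTop (𝓝 0) := QLim_zero P.b hP.hb hP.hb4
  have hdist : ∀ z n m, n ≤ m → dist (qn P n z) (qn P m z) ≤ 2 * P.α n + P.b n := by
    intro z n m hnm
    rw [Prod.dist_eq, Real.dist_eq, Real.dist_eq]
    have h1 := QLim_xm h h' P hP n m hnm z
    have h2 := QLim_ym h' P hP n m hnm z
    have h3 := hP.hα n
    have h4 := hP.hα m
    have h5 := hP.hb n
    have h6 := hP.hb m
    exact max_le (by linarith) (by linarith)
  have hsum : Tendsto (fun n => 2 * P.α n + P.b n) atTop (𝓝 0) := by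
    have h1 := (hα.const_mul 2).add hb
    rwa [mul_zero, add_zero] at h1
  have hlim : ∀ z, Tendsto (fun n => qn P n z) atTop (𝓝 (q P z)) := by
    intro z
    have hc : CauchySeq (fun n => qn P n z) :=
      cauchySeq_of_le_tendsto_0' (fun n => 2 * P.α n + P.b n) (fun n m hnm => hdist z n m hnm) hsum
    exact tendsto_nhds_limUnder (cauchySeq_tendsto_of_complete hc)
  have hX : ∀ n z, |(qn P n z).1 - (q P z).1| ≤ 2 * P.α n := by
    intro n z
    have h1 : Tendsto (fun m => |(qn P n z).1 - (qn P m z).1|) atTop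
        (𝓝 |(qn P n z).1 - (q P z).1|) :=
      (tendsto_const_nhds.sub ((continuous_fst.tendsto _).comp (hlim z))).abs
    refine le_of_tendsto h1 ?_
    filter_upwards [eventually_ge_atTop n] with m hm
    have h2 := QLim_xm h h' P hP n m hm z
    have h3 := hP.hα m
    linarith
  have hY : ∀ n z, |(qn P n z).2 - (q P z).2| ≤ P.b n := by
    intro n z
    have h1 : Tendsto (fun m => |(qn P n z).2 - (qn P m z).2|) atTop
        (𝓝 |(qn P n z).2 - (q P z).2|) :=
      (tendsto_const_nhds.sub ((continuous_snd.tendsto _).comp (hlim z))).abs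
    refine le_of_tendsto h1 ?_
    filter_upwards [eventually_ge_atTop n] with m hm
    have h2 := QLim_ym h' P hP n m hm z
    have h3 := hP.hb m
    linarith
  refine ⟨hlim, hX, hY, ?_, hα, hb⟩
  have hU : TendstoUniformly (fun n => qn P n) (q P) atTop := by
    rw [Metric.tendstoUniformly_iff]
    intro ε hε
    have h1 : ∀ᶠ n in atTop, 2 * P.α n + P.b n < ε := hsum.eventually (gt_mem_nhds hε)
    filter_upwards [h1] with n hn z
    rw [dist_comm, Prod.dist_eq, Real.dist_eq, Real.dist_eq]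
    have h3 := hX n z
    have h4 := hY n z
    have h5 := hP.hα n
    have h6 := hP.hb n
    exact max_lt (by linarith) (by linarith)
  exact hU.continuous (Eventually.of_forall fun n => (h' P hP).2.2.1 n).frequently

end Pool.Agent.Lib.MP_a6ceca_gt
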