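import Pool.Agent.Lib.MP_a6ceca_gt.Spec

/-!
# C1: elementary facts about the shears
-/

set_option autoImplicit false
open Set Filter Topology

namespace Pool.Agent.Lib.MP_a6ceca_gt

lemma shear_continuous_of_lip (K : ℝ) (f : ℝ → ℝ) (h : ∀ x y, |f x - f y| ≤ K * |x - y|) :
    Continuous f := by
  have h' : LipschitzWith (Real.toNNReal K) f := by
    refine LipschitzWith.of_dist_le_mul fun x y => ?_
    rw [Real.dist_eq, Real.dist_eq]
    refine le_trans (h x y) ?_
    exact mul_le_mul_of_nonneg_right (Real.le_coe_toNNReal K) (abs_nonneg _)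
  exact h'.continuous

lemma shear_Th_Sh (P : Par) (n : ℕ) (z : ℝ × ℝ) : Th P n (Sh P n z) = z := by
  obtain ⟨x, y⟩ := z
  simp [Th, Sh]

lemma shear_Sh_Th (P : Par) (n : ℕ) (z : ℝ × ℝ) : Sh P n (Th P n z) = z := by
  obtain ⟨x, y⟩ := z
  simp [Th, Sh]

lemma shear_qn_gn (P : Par) (n : ℕ) : ∀ z, qn P n (gn P n z) = z := by
  induction n with
  | zero => intro z; rfl
  | succ n ih =>
    intro z
    change Th P n (qn P n (gn P n (Sh P n z))) = z
    rw [ih, shear_Th_Sh]

lemma shear_gn_qn (P : Par) (n : ℕ) : ∀ z, gn P n (qn P n z) = z := by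
  induction n with
  | zero => intro z; rfl
  | succ n ih =>
    intro z
    change gn P n (Sh P n (Th P n (qn P n z))) = z
    rw [shear_Sh_Th, ih]

theorem shearStmt (h : TriStmt) : ShearStmt := by
  obtain ⟨htri, htri1, -, -⟩ := h
  intro P hP
  have ctri : Continuous tri :=
    shear_continuous_of_lip 1 tri fun x y => by rw [one_mul]; exact htri x y
  have cG : ∀ n, Continuous (P.G n) := fun n => shear_continuous_of_lip _ _ (hP.hG n).1
  have cphi : ∀ n, Continuous (phi P n) := fun n => by
    unfold phi
    exact continuous_const.mul (ctri.comp (continuous_id.div_const _))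
  have cpsi : ∀ n, Continuous (psi P n) := fun n => by
    unfold psi
    exact continuous_const.mul ((cG n).comp (ctri.comp (continuous_id.div_const _)))
  have cTh : ∀ n, Continuous (Th P n) := fun n => by
    unfold Th
    have h1 : Continuous fun z : ℝ × ℝ => z.2 - psi P n z.1 :=
      continuous_snd.sub ((cpsi n).comp continuous_fst)
    exact (continuous_fst.sub ((cphi n).comp h1)).prodMk h1
  have cSh : ∀ n, Continuous (Sh P n) := fun n => by
    unfold Sh
    have h1 : Continuous fun z : ℝ × ℝ => z.1 + phi P n z.2 :=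
      continuous_fst.add ((cphi n).comp continuous_snd)
    exact h1.prodMk (continuous_snd.add ((cpsi n).comp h1))
  have cqn : ∀ n, Continuous (qn P n) := by
    intro n
    induction n with
    | zero => exact continuous_id
    | succ n ih => exact (cTh n).comp ih
  have cgn : ∀ n, Continuous (gn P n) := by
    intro n
    induction n with
    | zero => exact continuous_id
    | succ n ih => exact ih.comp (cSh n)
  refine ⟨shear_qn_gn P, shear_gn_qn P, cqn, cgn, ?_, ?_, ?_, ?_⟩
  · intro n
    unfold wn
    exact (cG n).comp (ctri.comp ((continuous_fst.comp (cqn n)).div_const _))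
  · intro n z
    exact (hP.hG n).2.1 _
  · intro n z
    have h1 := shear_Sh_Th P n (qn P n z)
    change Sh P n (qn P (n + 1) z) = qn P n z at h1
    rw [← h1]
    rfl
  · intro n z
    have h1 := shear_Sh_Th P n (qn P n z)
    change Sh P n (qn P (n + 1) z) = qn P n z at h1
    have h2 : (qn P (n + 1) z).1 + phi P n (qn P (n + 1) z).2 = (qn P n z).1 := by
      rw [← h1]; rfl
    have h3 : (qn P n z).2 = (qn P (n + 1) z).2 +
        psi P n ((qn P (n + 1) z).1 + phi P n (qn P (n + 1) z).2) := by
      conv_lhs => rw [← h1]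
      rfl
    rw [h3, h2]
    rfl

end Pool.Agent.Lib.MP_a6ceca_gt
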