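import Mathlib
import Pool.Agent.Lib.MP_a6ceca_gt.Spec

/-!
# MP_a6ceca_gt : each coordinate is onto on each fibre
-/

set_option autoImplicit false
open Set Filter Topology

namespace Pool.Agent.Lib.MP_a6ceca_gt

theorem surj_dist_le {x y : ℝ × ℝ} {a b : ℝ} (ha : |x.1 - y.1| ≤ a) (hb : |x.2 - y.2| ≤ b)
    (ha0 : 0 ≤ a) (hb0 : 0 ≤ b) : dist x y ≤ a + b := by
  rw [Prod.dist_eq, Real.dist_eq, Real.dist_eq]
  exact max_le (by linarith) (by linarith)

theorem surjStmt (h1 : ShearStmt) (h2 : QLimStmt) (h3 : SurjPathStmt) : SurjStmt := by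
  intro P hP t n z hz
  obtain ⟨-, -, -, -, hwc, -, -, -⟩ := h1 P hP
  obtain ⟨-, hqx, hqy, hqc, hα0, hb0⟩ := h2 P hP
  have hαa : Antitone P.α := antitone_nat_of_succ_le fun k => by
    have := hP.hα4 k
    have := hP.hα (k + 1)
    linarith
  have hba : Antitone P.b := antitone_nat_of_succ_le fun k => by
    have := hP.hb4 k
    have := hP.hb (k + 1)
    linarith
  choose w hw1 hw2 hw3 using fun k : ℕ => h3 P hP t n (n + 1 + k) (by omega) z hz
  -- distances to `t`
  have hd : ∀ k, dist (q P (w k)) t ≤ 2 * P.α (n + 1 + k) + 2 * P.b (n + 1 + k) := by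
    intro k
    have e1 := hqx (n + 1 + k) (w k)
    have e2 := hqy (n + 1 + k) (w k)
    have e3 := hw2 k
    rw [hw1 k] at e1
    refine surj_dist_le ?_ ?_ ?_ ?_
    · rw [abs_sub_comm]; exact e1
    · have e4 : (q P (w k)).2 - t.2 =
          -((qn P (n + 1 + k) (w k)).2 - (q P (w k)).2) + ((qn P (n + 1 + k) (w k)).2 - t.2) := by
        ring
      rw [e4]
      refine (abs_add_le _ _).trans ?_
      rw [abs_neg]
      linarith
    · have := hP.hα (n + 1 + k); linarith
    · have := hP.hb (n + 1 + k); linarith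
  have hbd : ∀ k, w k ∈ Metric.closedBall t (4 * P.α 0 + 3 * P.b 0) := by
    intro k
    rw [Metric.mem_closedBall]
    have e1 := hd k
    have e2 : dist (w k) (q P (w k)) ≤ 2 * P.α 0 + P.b 0 :=
      surj_dist_le (hqx 0 (w k)) (hqy 0 (w k)) (by have := hP.hα 0; linarith) (hP.hb 0).le
    have e3 := hαa (Nat.zero_le (n + 1 + k))
    have e4 := hba (Nat.zero_le (n + 1 + k))
    have e5 := dist_triangle (w k) (q P (w k)) t
    linarith
  have hlim : Tendsto (fun k => q P (w k)) atTop (𝓝 t) := by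
    rw [tendsto_iff_dist_tendsto_zero]
    have hshift : Tendsto (fun k : ℕ => n + 1 + k) atTop atTop :=
      tendsto_atTop_mono (fun k => Nat.le_add_left k (n + 1)) tendsto_id
    have e1 : Tendsto (fun k : ℕ => 2 * P.α (n + 1 + k) + 2 * P.b (n + 1 + k)) atTop (𝓝 0) := by
      have := ((hα0.comp hshift).const_mul 2).add ((hb0.comp hshift).const_mul 2)
      simpa using this
    exact squeeze_zero (fun k => dist_nonneg) hd e1
  obtain ⟨a, -, φ, hφ, ha⟩ := (isCompact_closedBall t (4 * P.α 0 + 3 * P.b 0)).tendsto_subseq hbd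
  refine ⟨a, ?_, ?_⟩
  · have e1 : Tendsto (fun k => q P (w (φ k))) atTop (𝓝 (q P a)) := (hqc.tendsto a).comp ha
    exact tendsto_nhds_unique e1 (hlim.comp hφ.tendsto_atTop)
  · have e1 : Tendsto (fun k => wn P n (w (φ k))) atTop (𝓝 (wn P n a)) :=
      ((hwc n).tendsto a).comp ha
    have e2 : (fun k => wn P n (w (φ k))) = fun _ => z := funext fun k => hw3 (φ k)
    rw [e2] at e1
    exact tendsto_nhds_unique e1 tendsto_const_nhds

end Pool.Agent.Lib.MP_a6ceca_gt
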