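import Mathlib
import Pool.Agent.Lib.MP_a6ceca_gt.Spec

/-!
# MP_a6ceca_gt, C5: every coordinate is onto on the approximate fibres
-/

set_option autoImplicit false
open Set Filter Topology

namespace Pool.Agent.Lib.MP_a6ceca_gt

/-- On an interval of length at least four the triangular wave takes every value. -/
theorem SurjPath_tri (h : TriStmt) (a v : ℝ) (hv : |v| ≤ 1) :
    ∃ y : ℝ, a ≤ y ∧ y ≤ a + 4 ∧ tri y = v := by
  obtain ⟨k, hk⟩ : ∃ k : ℤ, k = ⌈(a - v) / 4⌉ := ⟨_, rfl⟩
  have h1 : (a - v) / 4 ≤ k := by rw [hk]; exact Int.le_ceil _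
  have h2 : (k : ℝ) < (a - v) / 4 + 1 := by rw [hk]; exact Int.ceil_lt_add_one _
  refine ⟨2 * ((2 * k : ℤ) : ℝ) + v, ?_, ?_, h.2.2.1 (2 * k) v hv ⟨k, by ring⟩⟩
  · push_cast
    linarith
  · push_cast
    linarith

/-- A continuous function with oscillation at least `4 c` on an interval: the rescaled triangular
wave takes every value along it. -/
theorem SurjPath_ivt (h : TriStmt) (f : ℝ → ℝ) (hf : Continuous f) (B c : ℝ) (hc : 0 < c)
    (s₁ s₂ : ℝ) (h1 : |s₁| ≤ B) (h2 : |s₂| ≤ B) (hle : 4 * c ≤ f s₂ - f s₁) (v : ℝ)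
    (hv : |v| ≤ 1) : ∃ s, |s| ≤ B ∧ tri (f s / c) = v := by
  obtain ⟨y, hy1, hy2, hy3⟩ := SurjPath_tri h (f s₁ / c) v hv
  have hy1' : f s₁ ≤ y * c := by
    rw [div_le_iff₀ hc] at hy1
    exact hy1
  have hy2' : y * c ≤ f s₂ := by
    have e1 : y * c ≤ (f s₁ / c + 4) * c := mul_le_mul_of_nonneg_right hy2 hc.le
    have e2 : (f s₁ / c + 4) * c = f s₁ + 4 * c := by
      rw [add_mul, div_mul_cancel₀ _ hc.ne']
    linarith
  have hcont : ContinuousOn f (uIcc s₁ s₂) := hf.continuousOn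
  have hmem : y * c ∈ uIcc (f s₁) (f s₂) := by
    rw [mem_uIcc]
    left
    exact ⟨hy1', hy2'⟩
  obtain ⟨s, hs, hfs⟩ := intermediate_value_uIcc hcont hmem
  refine ⟨s, ?_, ?_⟩
  · rw [abs_le] at h1 h2 ⊢
    rw [mem_uIcc] at hs
    rcases hs with hs | hs
    · exact ⟨by linarith [hs.1], by linarith [hs.2]⟩
    · exact ⟨by linarith [hs.1], by linarith [hs.2]⟩
  · rw [hfs, mul_div_cancel_right₀ _ hc.ne', hy3]

theorem surjPathStmt (h : TriStmt) (h' : ShearStmt) : SurjPathStmt := by
  intro P hP t n m hnm z hz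
  obtain ⟨hqg, -, hqc, hgc, hwc, hw1, hx, hy⟩ := h' P hP
  -- the path
  set F : ℝ → ℝ × ℝ := fun s => gn P m (t.1, t.2 + s) with hF
  have hFc : Continuous F := (hgc m).comp (by fun_prop)
  have hqF : ∀ s, qn P m (F s) = (t.1, t.2 + s) := fun s => hqg m _
  have hXc : ∀ j, Continuous (fun s => (qn P j (F s)).1) := fun j =>
    continuous_fst.comp ((hqc j).comp hFc)
  have hYc : ∀ j, Continuous (fun s => (qn P j (F s)).2) := fun j =>
    continuous_snd.comp ((hqc j).comp hFc)
  have hβ : ∀ j, P.β j = P.b j - P.b (j + 1) := fun j => rfl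
  have hβ0 : ∀ j, 0 ≤ P.β j := by
    intro j
    have e1 := hP.hb4 j
    have e2 := hP.hb (j + 1)
    rw [hβ]
    linarith
  -- first claim
  have hA : ∀ j k, k + j = m → ∀ s, |s| ≤ P.b m →
      |(qn P k (F s)).1 - t.1| ≤ 2 * P.α k ∧ |(qn P k (F s)).2 - t.2| ≤ P.b k := by
    intro j
    induction j with
    | zero =>
      intro k hk s hs
      have hk' : k = m := by omega
      subst hk'
      rw [hqF]
      have e1 := hP.hα k
      constructor
      · rw [sub_self, abs_zero]
        linarith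
      · simp only [add_sub_cancel_left]
        exact hs
    | succ j ih =>
      intro k hk s hs
      obtain ⟨e1, e2⟩ := ih (k + 1) (by omega) s hs
      have e3 := hP.hα4 k
      have e4 := hP.hα k
      constructor
      · rw [hx k (F s)]
        have e5 : |P.α k * tri ((qn P (k + 1) (F s)).2 / P.d k)| ≤ P.α k := by
          rw [abs_mul, abs_of_pos e4]
          calc P.α k * |tri ((qn P (k + 1) (F s)).2 / P.d k)| ≤ P.α k * 1 :=
                mul_le_mul_of_nonneg_left (h.2.1 _) e4.le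
            _ = P.α k := mul_one _
        rw [abs_le] at e1 e5 ⊢
        constructor <;> linarith [e1.1, e1.2, e5.1, e5.2]
      · rw [hy k (F s)]
        have e5 : |P.β k * wn P k (F s)| ≤ P.β k := by
          rw [abs_mul, abs_of_nonneg (hβ0 k)]
          calc P.β k * |wn P k (F s)| ≤ P.β k * 1 :=
                mul_le_mul_of_nonneg_left (hw1 _ _) (hβ0 k)
            _ = P.β k := mul_one _
        have e6 := hβ k
        rw [abs_le] at e2 e5 ⊢
        constructor <;> linarith [e2.1, e2.2, e5.1, e5.2]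
  -- second claim
  have hB : ∀ j k, k + 1 + j = m → ∀ z : ℝ, |z| ≤ 1 → ∃ s, |s| ≤ P.b m ∧ wn P k (F s) = z := by
    intro j
    induction j with
    | zero =>
      intro k hk z hz
      have hk' : m = k + 1 := by omega
      have hbm := hP.hb m
      have hosc : 4 * P.d k ≤ (qn P (k + 1) (F (P.b m))).2 - (qn P (k + 1) (F (-P.b m))).2 := by
        rw [← hk', hqF, hqF]
        have e1 : P.d k = P.b m / 8 := by rw [hk']; rfl
        rw [e1]
        simp only
        linarith
      have hd : 0 < P.d k := by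
        have e1 : P.d k = P.b (k + 1) / 8 := rfl
        rw [e1]
        have := hP.hb (k + 1)
        positivity
      obtain ⟨sa, hsa1, hsa2⟩ := SurjPath_ivt h _ (hYc (k + 1)) (P.b m) (P.d k) hd (-P.b m)
        (P.b m) (by rw [abs_neg, abs_of_pos hbm]) (by rw [abs_of_pos hbm]) hosc 1 (by simp)
      obtain ⟨sb, hsb1, hsb2⟩ := SurjPath_ivt h _ (hYc (k + 1)) (P.b m) (P.d k) hd (-P.b m)
        (P.b m) (by rw [abs_neg, abs_of_pos hbm]) (by rw [abs_of_pos hbm]) hosc (-1) (by simp)
      obtain ⟨g, -, hg1, hg2⟩ := (hP.hG k).2.2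
      have hp : 0 < P.p k := by
        have e1 : P.p k = P.α k / 4 := rfl
        rw [e1]
        have := hP.hα k
        positivity
      have hosc2 : 4 * P.p k ≤ (qn P k (F sa)).1 - (qn P k (F sb)).1 := by
        rw [hx k (F sa), hx k (F sb), hsa2, hsb2]
        have ea := (hA 0 (k + 1) (by omega) sa hsa1).1
        have eb := (hA 0 (k + 1) (by omega) sb hsb1).1
        rw [abs_le] at ea eb
        have e1 : P.p k = P.α k / 4 := rfl
        have e3 := hP.hα4 k
        have e4 := hP.hα k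
        rw [e1]
        linarith [ea.1, ea.2, eb.1, eb.2]
      obtain ⟨s, hs1, hs2⟩ := SurjPath_ivt h _ (hXc k) (P.b m) (P.p k) hp sb sa hsb1 hsa1 hosc2
        (g z) (hg1 z)
      refine ⟨s, hs1, ?_⟩
      unfold wn
      rw [hs2, hg2 z hz]
    | succ j ih =>
      intro k hk z hz
      have hbm := hP.hb m
      obtain ⟨s₂, hs₂, hw₂⟩ := ih (k + 1) (by omega) 1 (by simp)
      obtain ⟨s₁, hs₁, hw₁⟩ := ih (k + 1) (by omega) (-1) (by simp)
      have hosc : 4 * P.d k ≤ (qn P (k + 1) (F s₂)).2 - (qn P (k + 1) (F s₁)).2 := by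
        rw [hy (k + 1) (F s₂), hy (k + 1) (F s₁), hw₁, hw₂]
        have e1 : P.d k = P.b (k + 1) / 8 := rfl
        have e2 := (hA j (k + 2) (by omega) s₁ hs₁).2
        have e3 := (hA j (k + 2) (by omega) s₂ hs₂).2
        rw [abs_le] at e2 e3
        have e4 := hβ (k + 1)
        have e5 := hP.hb4 (k + 1)
        have e6 := hP.hb (k + 1)
        have e7 : k + 1 + 1 = k + 2 := rfl
        rw [e7] at e4 e5 ⊢
        rw [e1]
        linarith [e2.1, e2.2, e3.1, e3.2]
      have hd : 0 < P.d k := by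
        have e1 : P.d k = P.b (k + 1) / 8 := rfl
        rw [e1]
        have := hP.hb (k + 1)
        positivity
      obtain ⟨sa, hsa1, hsa2⟩ := SurjPath_ivt h _ (hYc (k + 1)) (P.b m) (P.d k) hd s₁ s₂ hs₁ hs₂
        hosc 1 (by simp)
      obtain ⟨sb, hsb1, hsb2⟩ := SurjPath_ivt h _ (hYc (k + 1)) (P.b m) (P.d k) hd s₁ s₂ hs₁ hs₂
        hosc (-1) (by simp)
      obtain ⟨g, -, hg1, hg2⟩ := (hP.hG k).2.2
      have hp : 0 < P.p k := by
        have e1 : P.p k = P.α k / 4 := rfl
        rw [e1]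
        have := hP.hα k
        positivity
      have hosc2 : 4 * P.p k ≤ (qn P k (F sa)).1 - (qn P k (F sb)).1 := by
        rw [hx k (F sa), hx k (F sb), hsa2, hsb2]
        have ea := (hA (j + 1) (k + 1) (by omega) sa hsa1).1
        have eb := (hA (j + 1) (k + 1) (by omega) sb hsb1).1
        rw [abs_le] at ea eb
        have e1 : P.p k = P.α k / 4 := rfl
        have e3 := hP.hα4 k
        have e4 := hP.hα k
        rw [e1]
        linarith [ea.1, ea.2, eb.1, eb.2]
      obtain ⟨s, hs1, hs2⟩ := SurjPath_ivt h _ (hXc k) (P.b m) (P.p k) hp sb sa hsb1 hsa1 hosc2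
        (g z) (hg1 z)
      refine ⟨s, hs1, ?_⟩
      unfold wn
      rw [hs2, hg2 z hz]
  obtain ⟨s, hs, hws⟩ := hB (m - n - 1) n (by omega) z hz
  refine ⟨F s, ?_, ?_, hws⟩
  · rw [hqF]
  · rw [hqF]
    simp only [add_sub_cancel_left]
    exact hs

end Pool.Agent.Lib.MP_a6ceca_gt
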