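import Pool.Agent.Lib.MP_a6ceca_gt.Spec

set_option autoImplicit false

/-!
# MP_a6ceca_gt: the triangular wave
-/

namespace Pool.Agent.Lib.MP_a6ceca_gt

private theorem tri_even (m : ℤ) (v : ℝ) (hv : |v| ≤ 1) : tri (4 * (m : ℝ) + v) = v := by
  have h1 := abs_le.1 hv
  unfold tri
  have hmem : (4 * (m : ℝ) + 1) ∈ Set.range (fun k : ℤ => (4 * (k : ℝ) + 1)) := ⟨m, rfl⟩
  have hle : Metric.infDist (4 * (m : ℝ) + v) (Set.range (fun k : ℤ => (4 * (k : ℝ) + 1))) ≤ 1 - v := by
    refine (Metric.infDist_le_dist_of_mem hmem).trans ?_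
    rw [Real.dist_eq]
    have : 4 * (m : ℝ) + v - (4 * (m : ℝ) + 1) = -(1 - v) := by ring
    rw [this, abs_neg, abs_of_nonneg (by linarith)]
  have hge : 1 - v ≤ Metric.infDist (4 * (m : ℝ) + v) (Set.range (fun k : ℤ => (4 * (k : ℝ) + 1))) := by
    rw [Metric.le_infDist ⟨_, hmem⟩]
    rintro _ ⟨l, rfl⟩
    rw [Real.dist_eq]
    rcases lt_trichotomy l m with h | h | h
    · have : (l : ℝ) + 1 ≤ (m : ℝ) := by exact_mod_cast h
      refine le_trans ?_ (le_abs_self _)
      simp only
      linarith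
    · subst h
      refine le_trans ?_ (neg_le_abs _)
      simp only
      linarith
    · have : (m : ℝ) + 1 ≤ (l : ℝ) := by exact_mod_cast h
      refine le_trans ?_ (neg_le_abs _)
      simp only
      linarith
  linarith

private theorem tri_odd (m : ℤ) (v : ℝ) (hv : |v| ≤ 1) : tri (4 * (m : ℝ) + 2 + v) = -v := by
  have h1 := abs_le.1 hv
  unfold tri
  have hmem : (4 * (m : ℝ) + 1) ∈ Set.range (fun k : ℤ => (4 * (k : ℝ) + 1)) := ⟨m, rfl⟩
  have hle : Metric.infDist (4 * (m : ℝ) + 2 + v) (Set.range (fun k : ℤ => (4 * (k : ℝ) + 1)))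
      ≤ 1 + v := by
    refine (Metric.infDist_le_dist_of_mem hmem).trans ?_
    rw [Real.dist_eq]
    have : 4 * (m : ℝ) + 2 + v - (4 * (m : ℝ) + 1) = 1 + v := by ring
    rw [this, abs_of_nonneg (by linarith)]
  have hge : 1 + v ≤ Metric.infDist (4 * (m : ℝ) + 2 + v)
      (Set.range (fun k : ℤ => (4 * (k : ℝ) + 1))) := by
    rw [Metric.le_infDist ⟨_, hmem⟩]
    rintro _ ⟨l, rfl⟩
    rw [Real.dist_eq]
    rcases lt_trichotomy l m with h | h | h
    · have : (l : ℝ) + 1 ≤ (m : ℝ) := by exact_mod_cast h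
      refine le_trans ?_ (le_abs_self _)
      simp only
      linarith
    · subst h
      refine le_trans ?_ (le_abs_self _)
      simp only
      linarith
    · have : (m : ℝ) + 1 ≤ (l : ℝ) := by exact_mod_cast h
      refine le_trans ?_ (neg_le_abs _)
      simp only
      linarith
  linarith

theorem triStmt : TriStmt := by
  have hE : ∀ (k : ℤ) (v : ℝ), |v| ≤ 1 → Even k → tri (2 * (k : ℝ) + v) = v := by
    intro k v hv hk
    obtain ⟨m, hm⟩ := hk
    have := tri_even m v hv
    rw [hm]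
    rw [← this]
    push_cast
    congr 1
    rw [this]
    ring
  have hO : ∀ (k : ℤ) (v : ℝ), |v| ≤ 1 → Odd k → tri (2 * (k : ℝ) + v) = - v := by
    intro k v hv hk
    obtain ⟨m, hm⟩ := hk
    have := tri_odd m v hv
    have e : (2 * (k : ℝ) + v) = 4 * (m : ℝ) + 2 + v := by
      rw [hm]; push_cast; ring
    rw [e, this]
  refine ⟨?_, ?_, hE, hO⟩
  · intro x y
    unfold tri
    have h1 := Metric.infDist_le_infDist_add_dist (s := Set.range (fun k : ℤ => (4 * (k : ℝ) + 1)))
      (x := x) (y := y)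
    have h2 := Metric.infDist_le_infDist_add_dist (s := Set.range (fun k : ℤ => (4 * (k : ℝ) + 1)))
      (x := y) (y := x)
    rw [Real.dist_eq] at h1 h2
    rw [abs_sub_comm y x] at h2
    rw [abs_le]
    constructor <;> linarith
  · intro x
    have h0 := abs_sub_round (x / 2)
    set k := round (x / 2) with hk
    have hv : |x - 2 * (k : ℝ)| ≤ 1 := by
      have : x - 2 * (k : ℝ) = 2 * (x / 2 - (k : ℝ)) := by ring
      rw [this, abs_mul]
      norm_num
      linarith
    have hx : x = 2 * (k : ℝ) + (x - 2 * (k : ℝ)) := by ring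
    rcases Int.even_or_odd k with he | ho
    · rw [hx, hE k _ hv he]
      exact hv
    · rw [hx, hO k _ hv ho, abs_neg]
      exact hv

end Pool.Agent.Lib.MP_a6ceca_gt
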