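import Mathlib
import Pool.Agent.Lib.MP_a6ceca_gt.Spec

/-!
# A5: an approximately universal split epimorphism
-/

set_option autoImplicit false
open Set Filter Topology

namespace Pool.Agent.Lib.MP_a6ceca_gt

/-- Finitely many split epimorphisms have a common multiple. -/
theorem univ_list (h1 : BasicStmt) (h2 : AmalgStmt) (K : ℝ) (hK : 1 ≤ K) :
    ∀ F : List (ℝ → ℝ), (∀ b ∈ F, Sp K b) → ∃ (L C : ℝ) (G : ℝ → ℝ), 1 ≤ L ∧ 1 ≤ C ∧ Sp L G ∧
      ∀ b ∈ F, ∃ c : ℝ → ℝ, Sp C c ∧ ∀ r, G r = b (c r) := by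
  obtain ⟨hcl, hmono, hcomp⟩ := h1
  intro F
  induction F with
  | nil =>
    intro _
    exact ⟨1, 1, cl, le_rfl, le_rfl, hcl, fun b hb => absurd hb List.not_mem_nil⟩
  | cons b F ih =>
    intro hF
    obtain ⟨L, C, G, hL, hC, hG, hFG⟩ := ih fun b' hb' => hF b' (List.mem_cons_of_mem _ hb')
    obtain ⟨M, hM⟩ : ∃ M, M = max L K := ⟨_, rfl⟩
    have hLM : L ≤ M := by rw [hM]; exact le_max_left _ _
    have hKM : K ≤ M := by rw [hM]; exact le_max_right _ _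
    have hM1 : 1 ≤ M := hL.trans hLM
    have hM2 : 1 ≤ 4 * M ^ 2 := by nlinarith
    obtain ⟨x, y, hx, hy, hxy⟩ := h2 M G b hM1 (hmono L M G hG hLM)
      (hmono K M b (hF b List.mem_cons_self) hKM)
    refine ⟨L * (4 * M ^ 2), C * (4 * M ^ 2), fun r => G (x r), ?_, ?_, ?_, ?_⟩
    · nlinarith
    · nlinarith
    · exact hcomp L (4 * M ^ 2) G x (by linarith) (by linarith) hG hx
    · intro b' hb'
      rcases List.mem_cons.1 hb' with rfl | hb'
      · refine ⟨y, hmono (4 * M ^ 2) (C * (4 * M ^ 2)) y hy (by nlinarith), hxy⟩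
      · obtain ⟨c, hc, hGc⟩ := hFG b' hb'
        exact ⟨fun r => c (x r), hcomp C (4 * M ^ 2) c x (by linarith) (by linarith) hc hx,
          fun r => hGc (x r)⟩

theorem univStmt (h1 : BasicStmt) (h2 : AmalgStmt) (h3 : NetStmt) : UnivStmt := by
  intro K ε hK hε
  obtain ⟨F, hF, hnet⟩ := h3 K ε (by linarith) hε
  obtain ⟨L, C, G, hL, hC, hG, hFG⟩ := univ_list h1 h2 K hK F hF
  refine ⟨L, C, G, hL, hC, hG, ?_⟩
  intro b hb
  obtain ⟨b', hb', hbb'⟩ := hnet b hb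
  obtain ⟨c, hc, hGc⟩ := hFG b' hb'
  refine ⟨c, hc, fun r _ => ?_⟩
  rw [hGc r, abs_sub_comm]
  exact hbb' (c r) (hc.2.1 r)

end Pool.Agent.Lib.MP_a6ceca_gt
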